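import Mathlib
import Pool.Agent.P.MP_9484ad_co.SosLayer

-- part Pool.Agent.P.MP_4600d4_nt.Base
section

/-! Signed weights with given moments, and averages over random signs. -/

namespace Pool.Agent.P.MP_4600d4_nt

open Finset

variable {K : Type*} [DecidableEq K]

/-- The indicator of `j ∈ Q`. -/
def ix (Q : Finset K) (j : K) : ℝ := if j ∈ Q then 1 else 0

/-- The sign of `j` attached to `σ`. -/
def ep (σ : Finset K) (j : K) : ℝ := if j ∈ σ then 1 else -1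

theorem ix_sq (Q : Finset K) (j : K) : ix Q j ^ 2 = ix Q j := by
  unfold ix; split_ifs <;> norm_num

theorem avg_aux (α β : K → ℝ) (s : Finset K) : ∀ d a : ℝ,
    ∑ σ ∈ s.powerset, (d + ∑ j ∈ s, ep σ j * α j) ^ 2 * (a + ∑ j ∈ s, ep σ j * β j) ^ 2 =
      2 ^ s.card * (d ^ 2 * a ^ 2 + d ^ 2 * ∑ j ∈ s, β j ^ 2 + a ^ 2 * ∑ j ∈ s, α j ^ 2 +
        4 * d * a * ∑ j ∈ s, α j * β j + (∑ j ∈ s, α j ^ 2) * (∑ j ∈ s, β j ^ 2) +
        2 * (∑ j ∈ s, α j * β j) ^ 2 - 2 * ∑ j ∈ s, α j ^ 2 * β j ^ 2) := by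
  induction s using Finset.induction_on with
  | empty => intro d a; simp
  | insert i s hi ih =>
    intro d a
    have e1 : ∀ σ ∈ s.powerset, ∀ (x : ℝ) (γ : K → ℝ),
        x + ∑ j ∈ insert i s, ep σ j * γ j = (x - γ i) + ∑ j ∈ s, ep σ j * γ j := by
      intro σ hσ x γ
      have : i ∉ σ := fun h => hi (mem_powerset.1 hσ h)
      rw [sum_insert hi, ep, if_neg this]; ring
    have e2 : ∀ σ ∈ s.powerset, ∀ (x : ℝ) (γ : K → ℝ),
        x + ∑ j ∈ insert i s, ep (insert i σ) j * γ j = (x + γ i) + ∑ j ∈ s, ep σ j * γ j := by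
      intro σ _ x γ
      have : ∀ j ∈ s, ep (insert i σ) j * γ j = ep σ j * γ j := fun j hj => by
        have : j ≠ i := fun h => hi (h ▸ hj)
        simp [ep, this]
      rw [sum_insert hi, sum_congr rfl this, ep, if_pos (mem_insert_self _ _)]; ring
    rw [sum_powerset_insert hi, sum_congr rfl fun σ hσ => by rw [e1 σ hσ, e1 σ hσ],
      sum_congr rfl (s₁ := s.powerset) (f := fun σ => (d + ∑ j ∈ insert i s,
        ep (insert i σ) j * α j) ^ 2 * (a + ∑ j ∈ insert i s, ep (insert i σ) j * β j) ^ 2)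
        fun σ hσ => by rw [e2 σ hσ, e2 σ hσ], ih, ih, card_insert_of_notMem hi]
    simp only [sum_insert hi]
    ring

variable [Fintype K]

theorem exists_nu (y : Finset K → ℝ) : ∃ ν : Finset K → ℝ,
    (∀ S, ∑ Q, ν Q * (if S ⊆ Q then 1 else 0) = y S) ∧
      ∀ Q, (∀ T, Q ⊆ T → y T = 0) → ν Q = 0 := by
  refine ⟨fun Q => ∑ T, if Q ⊆ T then IncidenceAlgebra.mu ℝ Q T * y T else 0, fun S => ?_,
    fun Q h => sum_eq_zero fun T _ => ?_⟩
  · simp only [sum_mul]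
    rw [sum_comm]
    have : ∀ T : Finset K, ∑ Q, (if Q ⊆ T then IncidenceAlgebra.mu ℝ Q T * y T else 0) *
        (if S ⊆ Q then 1 else 0) = (if S = T then 1 else 0) * y T := fun T => by
      rw [← IncidenceAlgebra.sum_Icc_mu_left, sum_mul, ← sum_subset (subset_univ (Icc S T))]
      · refine sum_congr rfl fun Q hQ => ?_
        rw [mem_Icc] at hQ
        rw [if_pos (show Q ⊆ T from hQ.2), if_pos (show S ⊆ Q from hQ.1), mul_one]
      · intro Q _ hQ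
        rw [mem_Icc] at hQ
        by_cases h1 : Q ⊆ T
        · rw [if_neg (show ¬ S ⊆ Q from fun h2 => hQ ⟨h2, h1⟩), mul_zero]
        · rw [if_neg h1, zero_mul]
    simp only [this]
    simp
  · split_ifs with hT
    · rw [h T hT, mul_zero]
    · rfl

theorem avg_one (a : ℝ) (β : K → ℝ) :
    ∑ σ : Finset K, (a + ∑ j, ep σ j * β j) ^ 2 =
      2 ^ Fintype.card K * (a ^ 2 + ∑ j, β j ^ 2) := by
  have := avg_aux (fun _ => 0) β univ 1 a
  simpa using this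

theorem avg_two (Q : Finset K) (a : ℝ) (δ : K → ℝ) :
    ∑ σ : Finset K, (∑ j, ep σ j * ix Q j) ^ 2 * (a + ∑ j, ep σ j * (δ j * ix Q j)) ^ 2 =
      ∑ σ : Finset K, (∑ j, ix Q j) * (a + ∑ j, ep σ j * (δ j * ix Q j)) ^ 2 +
        2 ^ Fintype.card K * (2 * (∑ j, δ j * ix Q j) ^ 2 - 2 * ∑ j, δ j ^ 2 * ix Q j) := by
  have := avg_aux (ix Q) (fun j => δ j * ix Q j) univ 0 a
  have e1 : ∀ j, ix Q j * (δ j * ix Q j) = δ j * ix Q j := fun j => by
    linear_combination δ j * ix_sq Q j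
  have e2 : ∀ j, ix Q j * (δ j * ix Q j) ^ 2 = δ j ^ 2 * ix Q j := fun j => by
    unfold ix; split_ifs <;> simp
  simp only [zero_add, powerset_univ, card_univ, ix_sq, e1, e2] at this
  rw [this, ← mul_sum, avg_one]
  ring

end Pool.Agent.P.MP_4600d4_nt
end

-- part Pool.Agent.P.MP_4600d4_nt.Mom
section

/-! Positivity and low moments of the signed weight on cliques. -/

namespace Pool.Agent.P.MP_4600d4_nt

open Finset Pool.Agent.P.MP_9484ad_co

section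
variable {K : Type*} [DecidableEq K] [Fintype K] {y ν : Finset K → ℝ}

theorem psd_fam {ι : Type*} [Fintype ι]
    (hν : ∀ S, ∑ Q, ν Q * (if S ⊆ Q then 1 else 0) = y S)
    (hy : ∀ c : Finset K → ℝ, (∀ S : Finset K, 2 < S.card → c S = 0) →
      0 ≤ ∑ S, ∑ T, c S * c T * y (S ∪ T))
    (S : ι → Finset K) (hS : ∀ i, (S i).card ≤ 2) (c : ι → ℝ) :
    0 ≤ ∑ Q, ν Q * (∑ i, c i * (if S i ⊆ Q then 1 else 0)) ^ 2 := by
  let c' : Finset K → ℝ := fun T => ∑ i, if S i = T then c i else 0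
  have e : ∀ Q : Finset K, ∑ i, c i * (if S i ⊆ Q then (1 : ℝ) else 0) =
      ∑ T, c' T * (if T ⊆ Q then 1 else 0) := fun Q => by
    simp only [c', sum_mul]
    rw [sum_comm]
    refine sum_congr rfl fun i _ => ?_
    simp only [ite_mul, zero_mul, sum_ite_eq, mem_univ, if_true]
  refine (hy c' fun T hT => sum_eq_zero fun i _ => if_neg fun h => ?_).trans_eq ?_
  · have := hS i
    rw [h] at this
    omega
  · simp only [e, sq, sum_mul_sum, ← hν]
    simp only [mul_sum]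
    rw [sum_comm (s := univ) (t := univ) (f := fun Q S => ∑ T, ν Q * _)]
    refine sum_congr rfl fun A _ => ?_
    rw [sum_comm]
    refine sum_congr rfl fun B _ => sum_congr rfl fun Q _ => ?_
    by_cases h1 : A ⊆ B <;> by_cases h2 : Q ⊆ B <;> simp only [union_subset_iff, h1, h2] <;> simp
    ring

theorem psd_quad {V : Type*} [Fintype V]
    (hν : ∀ S, ∑ Q, ν Q * (if S ⊆ Q then 1 else 0) = y S)
    (hy : ∀ c : Finset K → ℝ, (∀ S : Finset K, 2 < S.card → c S = 0) →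
      0 ≤ ∑ S, ∑ T, c S * c T * y (S ∪ T))
    (π : V → K) (c : ℝ) (u : V → ℝ) (w : V → V → ℝ) :
    0 ≤ ∑ Q, ν Q * (c + ∑ i, u i * ix Q (π i) +
      ∑ i, ∑ j, w i j * (ix Q (π i) * ix Q (π j))) ^ 2 := by
  refine (psd_fam (ι := Option (V ⊕ V × V)) hν hy
    (fun o => o.elim ∅ (Sum.elim (fun i => {π i}) fun e => {π e.1, π e.2})) ?_
    (fun o => o.elim c (Sum.elim u fun e => w e.1 e.2))).trans_eq
    (sum_congr rfl fun Q _ => ?_)
  · rintro (_ | i | e)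
    · simp
    · simp
    · exact card_le_two
  · have : ∀ (a b : K) [Decidable (({a, b} : Finset K) ⊆ Q)],
        (if ({a, b} : Finset K) ⊆ Q then (1 : ℝ) else 0) = ix Q a * ix Q b :=
      fun a b _ => by
        by_cases h1 : a ∈ Q <;> by_cases h2 : b ∈ Q <;> simp [ix, insert_subset_iff, h1, h2]
    simp only [Fintype.sum_option, Fintype.sum_sum_type, Fintype.sum_prod_type, Option.elim,
      Sum.elim_inl, Sum.elim_inr, this, singleton_subset_iff, empty_subset, if_true, mul_one,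
      add_assoc]
    rfl

theorem psd_prod (hν : ∀ S, ∑ Q, ν Q * (if S ⊆ Q then 1 else 0) = y S)
    (hy : ∀ c : Finset K → ℝ, (∀ S : Finset K, 2 < S.card → c S = 0) →
      0 ≤ ∑ S, ∑ T, c S * c T * y (S ∪ T))
    (a0 b0 : ℝ) (a b : K → ℝ) :
    0 ≤ ∑ Q, ν Q * ((a0 + ∑ j, a j * ix Q j) * (b0 + ∑ j, b j * ix Q j)) ^ 2 := by
  refine (psd_quad hν hy id (a0 * b0) (fun j => a0 * b j + b0 * a j)
    fun i j => a i * b j).trans_eq (sum_congr rfl fun Q _ => ?_)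
  have e1 : ∑ i, ∑ j, a i * b j * (ix Q i * ix Q j) =
      (∑ j, a j * ix Q j) * ∑ j, b j * ix Q j := by
    rw [sum_mul_sum]
    exact sum_congr rfl fun i _ => sum_congr rfl fun j _ => by ring
  have e2 : ∑ j, (a0 * b j + b0 * a j) * ix Q j =
      a0 * ∑ j, b j * ix Q j + b0 * ∑ j, a j * ix Q j := by
    rw [mul_sum, mul_sum, ← sum_add_distrib]
    exact sum_congr rfl fun i _ => by ring
  simp only [id, e1, e2]
  ring

end

variable {K : Type*} [Field K] [DecidableEq K] [Fintype K]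

theorem quad_form {w : Finset K → ℝ} {w0 w1 w2 w3 : ℝ} (h0 : ∑ Q, w Q = w0)
    (h1 : ∀ i, ∑ Q, w Q * ix Q i = w1)
    (h2 : ∀ i j, ∑ Q, w Q * (ix Q i * ix Q j) = w2 * (1 + sg i j) + w3 * sdl i j)
    (c : ℝ) (u : K → ℝ) :
    ∑ Q, w Q * (c + ∑ j, u j * ix Q j) ^ 2 = c ^ 2 * w0 + 2 * c * w1 * ∑ j, u j +
      w2 * ((∑ j, u j) ^ 2 + ∑ i, ∑ j, sg i j * u i * u j) + w3 * ∑ j, u j ^ 2 := by
  have e : ∀ Q, w Q * (c + ∑ j, u j * ix Q j) ^ 2 = c ^ 2 * w Q +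
      ∑ j, 2 * c * u j * (w Q * ix Q j) + ∑ i, ∑ j, u i * u j * (w Q * (ix Q i * ix Q j)) :=
    fun Q => by
      have a1 : ∑ j, 2 * c * u j * (w Q * ix Q j) = 2 * c * w Q * ∑ j, u j * ix Q j := by
        rw [mul_sum]
        exact sum_congr rfl fun i _ => by ring
      have a2 : ∑ i, ∑ j, u i * u j * (w Q * (ix Q i * ix Q j)) =
          w Q * ((∑ j, u j * ix Q j) * ∑ j, u j * ix Q j) := by
        rw [sum_mul_sum, mul_sum]
        refine sum_congr rfl fun i _ => ?_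
        rw [mul_sum]
        exact sum_congr rfl fun i _ => by ring
      rw [a1, a2]; ring
  have b1 : ∑ Q, ∑ j, 2 * c * u j * (w Q * ix Q j) = 2 * c * w1 * ∑ j, u j := by
    rw [sum_comm, mul_sum]
    exact sum_congr rfl fun j _ => by rw [← mul_sum, h1]; ring
  have b2 : ∑ Q, ∑ i, ∑ j, u i * u j * (w Q * (ix Q i * ix Q j)) =
      w2 * ((∑ j, u j) ^ 2 + ∑ i, ∑ j, sg i j * u i * u j) + w3 * ∑ j, u j ^ 2 := by
    rw [sum_comm, sq, sum_mul_sum, ← sum_add_distrib, mul_sum, mul_sum, ← sum_add_distrib]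
    refine sum_congr rfl fun i _ => ?_
    have : w3 * u i ^ 2 = ∑ j, u i * u j * (w3 * sdl i j) := by
      simp only [sdl, mul_ite, mul_one, mul_zero, sum_ite_eq, mem_univ, if_true]; ring
    rw [sum_comm, this, ← sum_add_distrib, mul_sum, ← sum_add_distrib]
    exact sum_congr rfl fun j _ => by rw [← mul_sum, h2]; ring
  simp only [e, sum_add_distrib, ← mul_sum, h0]
  rw [b2, b1]
  ring

theorem sg_row (hK : ringChar K ≠ 2) (a : K) : ∑ v, sg v a = 0 := by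
  have := quadraticChar_sum_zero hK
  rw [← Equiv.sum_comp (Equiv.subRight a)] at this
  simp only [sg]
  exact_mod_cast this

variable {κ C : ℝ} {ν : Finset K → ℝ}

theorem nu0 (hν : ∀ S, ∑ Q, ν Q * (if S ⊆ Q then 1 else 0) = mom κ C S) : ∑ Q, ν Q = 1 := by
  simpa [mom_empty] using hν ∅

theorem nu1 (hν : ∀ S, ∑ Q, ν Q * (if S ⊆ Q then 1 else 0) = mom κ C S) (i : K) :
    ∑ Q, ν Q * ix Q i = κ := by
  simpa only [ix, singleton_subset_iff, mom_one] using hν {i}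

theorem nu2 (h1 : IsSquare (-1 : K))
    (hν : ∀ S, ∑ Q, ν Q * (if S ⊆ Q then 1 else 0) = mom κ C S) (i j : K) :
    ∑ Q, ν Q * (ix Q i * ix Q j) = κ ^ 2 * (1 + sg i j) + (κ - κ ^ 2) * sdl i j := by
  rw [← mom_vw (C := C) h1, ← hν]
  refine sum_congr rfl fun Q _ => ?_
  by_cases a : i ∈ Q <;> by_cases b : j ∈ Q <;> simp [ix, insert_subset_iff, a, b]

theorem nu3 (hν : ∀ S, ∑ Q, ν Q * (if S ⊆ Q then 1 else 0) = mom κ C S) (v i j : K) :
    ∑ Q, ν Q * (ix Q v * (ix Q i * ix Q j)) = mom κ C ({v} ∪ {i, j}) := by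
  rw [← hν]
  refine sum_congr rfl fun Q _ => ?_
  by_cases a : i ∈ Q <;> by_cases b : j ∈ Q <;> by_cases c : v ∈ Q <;>
    simp [ix, insert_subset_iff, a, b, c]

theorem nuW0 (hν : ∀ S, ∑ Q, ν Q * (if S ⊆ Q then 1 else 0) = mom κ C S) :
    ∑ Q, ν Q * ∑ v, ix Q v = κ * Fintype.card K := by
  simp only [mul_sum]
  rw [sum_comm]
  simp [nu1 hν, mul_comm]

theorem nuW1 (hK : ringChar K ≠ 2) (h1 : IsSquare (-1 : K))
    (hν : ∀ S, ∑ Q, ν Q * (if S ⊆ Q then 1 else 0) = mom κ C S) (i : K) :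
    ∑ Q, (ν Q * ∑ v, ix Q v) * ix Q i = κ + κ ^ 2 * Fintype.card K - κ ^ 2 := by
  simp only [mul_sum, sum_mul, mul_assoc]
  rw [sum_comm]
  simp only [nu2 h1 hν, sum_add_distrib, ← mul_sum, sg_row hK, sdl, sum_ite_eq', mem_univ, if_true,
    sum_const, card_univ, nsmul_eq_mul]
  ring

theorem nuW2 (hK : ringChar K ≠ 2) (h1 : IsSquare (-1 : K))
    (hν : ∀ S, ∑ Q, ν Q * (if S ⊆ Q then 1 else 0) = mom κ C S) (i j : K) :
    ∑ Q, (ν Q * ∑ v, ix Q v) * (ix Q i * ix Q j) =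
      κ ^ 2 * (2 + κ * Fintype.card K - 5 * κ) * (1 + sg i j) +
        (κ + κ ^ 2 * Fintype.card K - κ ^ 2 - κ ^ 2 * (2 + κ * Fintype.card K - 5 * κ)) *
          sdl i j := by
  by_cases h : i = j
  · subst h
    simp only [← sq, ix_sq, nuW1 hK h1 hν, sg_self, sdl, if_true]
    ring
  simp only [mul_sum, sum_mul, mul_assoc]
  rw [sum_comm]
  simp only [nu3 hν]
  rcases sg_cases h with e | e
  · have g := sg_gram hK i j
    rw [if_neg h] at g
    have : ∀ v, (1 + sg v i) * (1 + sg v j) = 1 + sg v i + sg v j + sg v i * sg v j :=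
      fun v => by ring
    simp only [mom_vab h1 _ h e, this, sum_add_distrib, ← mul_sum, sg_row hK, g, sdl, sum_ite_eq',
      mem_univ, if_true, sum_const, card_univ, nsmul_eq_mul, e, if_neg h]
    ring
  · rw [sum_eq_zero fun v _ => mom_nonedge (a := i) (b := j) (by simp) (by simp) h
      (by rw [e]; norm_num), e, sdl, if_neg h]
    ring

end Pool.Agent.P.MP_4600d4_nt
end

-- part Pool.Agent.P.MP_4600d4_nt.Core
section

/-! The size constraints hold after a random split of the clique. -/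

namespace Pool.Agent.P.MP_4600d4_nt

open Finset Pool.Agent.P.MP_9484ad_co

theorem ineq {g V z n κ G : ℝ} (h0 : 0 ≤ κ) (hκ : κ ≤ 1 / 1000) (hG : 80 ≤ G)
    (hκG : κ * G ≤ 1 / 1000) (hn : 0 ≤ n) (hV : V ^ 2 ≤ G * n) (hz : |z| ≤ n / 1000) :
    -(G / 4 * (g ^ 2 + z + (1 - κ) * n)) ≤
      2 * (1 - κ) * g * V - 3 * κ * V ^ 2 + (2 - 5 * κ) * z + n * (1 - 3 * κ + 5 * κ ^ 2) ∧
    2 * (1 - κ) * g * V - 3 * κ * V ^ 2 + (2 - 5 * κ) * z + n * (1 - 3 * κ + 5 * κ ^ 2) ≤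
      G * (g ^ 2 + z + (1 - κ) * n) := by
  obtain ⟨z1, z2⟩ := abs_le.1 hz
  have G0 : 0 < G := by linarith
  have v1 : ((1 - κ) * V) ^ 2 ≤ G * n := by
    have : (1 - κ) ^ 2 ≤ 1 := by nlinarith
    nlinarith [sq_nonneg V]
  have a1 : -(G / 4 * g ^ 2 + 4 * n) ≤ 2 * (1 - κ) * g * V := by
    refine le_of_mul_le_mul_left ?_ G0
    nlinarith [sq_nonneg (G * g / 2 + 2 * ((1 - κ) * V))]
  have a2 : 2 * (1 - κ) * g * V ≤ G * g ^ 2 + n := by
    refine le_of_mul_le_mul_left ?_ G0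
    nlinarith [sq_nonneg (G * g - (1 - κ) * V)]
  have a3 : κ * V ^ 2 ≤ n / 1000 := by
    have := mul_le_mul_of_nonneg_left hV h0
    nlinarith
  have a4 : 0 ≤ κ * V ^ 2 := by positivity
  have a5 : κ * n ≤ n / 1000 := by nlinarith
  have a6 : 0 ≤ κ * n := by positivity
  have a7 : κ * z ≤ n / 1000 := by nlinarith
  have a8 : -(n / 1000) ≤ κ * z := by nlinarith
  have a9 : κ ^ 2 * n ≤ n / 1000 := by nlinarith
  have a10 : 0 ≤ κ ^ 2 * n := by positivity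
  have b : 70 * n ≤ G * (z + (1 - κ) * n) := by nlinarith
  constructor <;> nlinarith

variable {K : Type*} [Field K] [DecidableEq K] [Fintype K] {κ C r : ℝ} {ν : Finset K → ℝ}

omit [Field K] [DecidableEq K] in
theorem lin_sq (hq : r ^ 2 = Fintype.card K) (u : K → ℝ) :
    (κ * ∑ j, u j) ^ 2 ≤ κ * r ^ 2 * (κ * ∑ j, u j ^ 2) := by
  have := sq_sum_le_card_mul_sum_sq (s := univ) (f := u)
  rw [card_univ, ← hq] at this
  nlinarith [mul_le_mul_of_nonneg_left this (sq_nonneg κ)]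

theorem sgn_sq (hK : ringChar K ≠ 2) (hκ : 0 ≤ κ) (hr : 0 ≤ r) (hq : r ^ 2 = Fintype.card K)
    (ht : κ * r ≤ 1 / 1000) (u : K → ℝ) :
    |κ ^ 2 * ∑ i, ∑ j, sg i j * u i * u j| ≤ κ * (∑ j, u j ^ 2) / 1000 := by
  have := sg_form hK hr hq u
  have hn : 0 ≤ κ * ∑ j, u j ^ 2 := mul_nonneg hκ (sum_nonneg fun _ _ => sq_nonneg _)
  rw [abs_mul, abs_of_nonneg (sq_nonneg κ)]
  nlinarith [mul_le_mul_of_nonneg_left this (sq_nonneg κ), mul_le_mul_of_nonneg_right ht hn]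

theorem pe (hK : ringChar K ≠ 2) (h1 : IsSquare (-1 : K))
    (hν : ∀ S, ∑ Q, ν Q * (if S ⊆ Q then 1 else 0) = mom κ C S) (hκ : 0 ≤ κ) (hr : 1 ≤ r)
    (hq : r ^ 2 = Fintype.card K) (ht : κ * r ≤ 1 / 1000) (hG : 80 ≤ κ * r ^ 2)
    (c : ℝ) (u : K → ℝ) :
    3 / 4 * (κ * r ^ 2) * ∑ Q, ν Q * (c + ∑ j, u j * ix Q j) ^ 2 ≤
      ∑ Q, (ν Q * ∑ v, ix Q v) * (c + ∑ j, u j * ix Q j) ^ 2 ∧
    ∑ Q, (ν Q * ∑ v, ix Q v) * (c + ∑ j, u j * ix Q j) ^ 2 ≤
      2 * (κ * r ^ 2) * ∑ Q, ν Q * (c + ∑ j, u j * ix Q j) ^ 2 := by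
  rw [quad_form (nu0 hν) (nu1 hν) (nu2 h1 hν),
    quad_form (nuW0 hν) (nuW1 hK h1 hν) (nuW2 hK h1 hν), ← hq]
  have k0 : 0 ≤ κ * r := by positivity
  obtain ⟨a, b⟩ := ineq (g := c + κ * ∑ j, u j) hκ (by nlinarith) hG (by nlinarith)
    (mul_nonneg hκ (sum_nonneg fun j _ => sq_nonneg (u j))) (lin_sq (κ := κ) hq u)
    (sgn_sq hK hκ (by linarith) hq ht u)
  constructor
  · linear_combination a
  · linear_combination b

theorem core (hK : ringChar K ≠ 2) (h1 : IsSquare (-1 : K))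
    (hν : ∀ S, ∑ Q, ν Q * (if S ⊆ Q then 1 else 0) = mom κ C S)
    (hy : ∀ c : Finset K → ℝ, (∀ S : Finset K, 2 < S.card → c S = 0) →
      0 ≤ ∑ S, ∑ T, c S * c T * mom κ C (S ∪ T)) (hκ : 0 ≤ κ) (hr : 1 ≤ r)
    (hq : r ^ 2 = Fintype.card K) (ht : κ * r ≤ 1 / 1000) (hG : 80 ≤ κ * r ^ 2)
    {k : ℝ} (hk : k ≤ κ * r ^ 2 / 4) (c : ℝ) (e δ : K → ℝ) :
    (∀ t : ℝ, t ^ 2 = 1 → 0 ≤ ∑ σ : Finset K, ∑ Q, ν Q *
      ((c + ∑ j, (e j + ep σ j * δ j) * ix Q j) ^ 2 *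
        ((∑ j, ix Q j + t * ∑ j, ep σ j * ix Q j) / 2 - k))) ∧
    0 ≤ ∑ σ : Finset K, ∑ Q, ν Q * ((c + ∑ j, (e j + ep σ j * δ j) * ix Q j) ^ 2 *
      (((∑ j, ix Q j + ∑ j, ep σ j * ix Q j) / 2 - k) *
        ((∑ j, ix Q j - ∑ j, ep σ j * ix Q j) / 2 - k))) := by
  set G := κ * r ^ 2 with hGd
  let s : Finset K → Finset K → ℝ := fun σ Q => c + ∑ j, (e j + ep σ j * δ j) * ix Q j
  let W : Finset K → ℝ := fun Q => ∑ j, ix Q j
  let D : Finset K → Finset K → ℝ := fun σ Q => ∑ j, ep σ j * ix Q j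
  let E : Finset K → ℝ := fun σ => ∑ Q, ν Q * s σ Q ^ 2
  let P : Finset K → ℝ := fun σ => ∑ Q, ν Q * W Q * s σ Q ^ 2
  let R : Finset K → ℝ := fun σ => ∑ Q, ν Q * (D σ Q * s σ Q ^ 2)
  let T : Finset K → ℝ := fun σ => ∑ Q, ν Q * (D σ Q ^ 2 * s σ Q ^ 2)
  have hs : ∀ σ Q, s σ Q = (c + ∑ j, e j * ix Q j) + ∑ j, ep σ j * (δ j * ix Q j) := fun σ Q => by
    simp only [s, add_assoc, ← sum_add_distrib]
    exact congrArg _ (sum_congr rfl fun j _ => by ring)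
  have hP : ∀ σ, 3 / 4 * G * E σ ≤ P σ ∧ P σ ≤ 2 * G * E σ := fun σ =>
    pe hK h1 hν hκ hr hq ht hG c _
  have hn : 0 ≤ κ * ∑ j, δ j ^ 2 := mul_nonneg hκ (sum_nonneg fun j _ => sq_nonneg _)
  have q2 : (0 : ℝ) < 2 ^ Fintype.card K := by positivity
  have d1 : ∑ Q, ν Q * ∑ j, δ j ^ 2 * ix Q j = κ * ∑ j, δ j ^ 2 := by
    simp only [mul_sum]
    rw [sum_comm]
    refine sum_congr rfl fun j _ => ?_
    rw [← nu1 hν j, sum_mul]
    exact sum_congr rfl fun Q _ => by ring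
  have hE : 2 ^ Fintype.card K * (κ * ∑ j, δ j ^ 2) ≤ ∑ σ, E σ := by
    have a := psd_prod hν hy c 1 e fun _ => 0
    have b : ∀ Q j, (δ j * ix Q j) ^ 2 = δ j ^ 2 * ix Q j := fun Q j => by rw [mul_pow, ix_sq]
    simp only [zero_mul, sum_const_zero, add_zero, mul_one] at a
    simp only [E, hs]
    rw [sum_comm]
    simp only [← mul_sum, avg_one, b, mul_left_comm (ν _), mul_add (ν _), sum_add_distrib, d1]
    exact mul_le_mul_of_nonneg_left (by linarith) q2.le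
  have hE0 : 0 ≤ ∑ σ, E σ := (mul_nonneg q2.le hn).trans hE
  have hP1 : 3 / 4 * G * ∑ σ, E σ ≤ ∑ σ, P σ := by
    rw [mul_sum]; exact sum_le_sum fun σ _ => (hP σ).1
  have hP2 : ∑ σ, P σ ≤ 2 * G * ∑ σ, E σ := by
    rw [mul_sum]; exact sum_le_sum fun σ _ => (hP σ).2
  have hT : ∑ σ, T σ ≤ 5 * G * ∑ σ, E σ := by
    have a := quad_form (nu0 hν) (nu1 hν) (nu2 h1 hν) 0 δ
    have b1 := lin_sq (κ := κ) hq δ
    have b2 := (abs_le.1 (sgn_sq hK hκ (by linarith) hq ht δ)).2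
    have b3 : 0 ≤ κ ^ 2 * ∑ j, δ j ^ 2 := mul_nonneg (sq_nonneg κ) (sum_nonneg fun j _ => sq_nonneg _)
    have e1 : ∑ σ, T σ = ∑ σ, P σ + 2 ^ Fintype.card K *
        (2 * ∑ Q, ν Q * (0 + ∑ j, δ j * ix Q j) ^ 2 - 2 * (κ * ∑ j, δ j ^ 2)) := by
      simp only [T, P, D, W, hs]
      rw [sum_comm, sum_comm (f := fun σ Q => ν Q * _ * _), ← d1, mul_sum, mul_sum,
        ← sum_sub_distrib, mul_sum, ← sum_add_distrib]
      refine sum_congr rfl fun Q _ => ?_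
      rw [← mul_sum, avg_two, ← mul_sum, ← mul_sum]
      ring
    have e2 : 2 * ∑ Q, ν Q * (0 + ∑ j, δ j * ix Q j) ^ 2 - 2 * (κ * ∑ j, δ j ^ 2) ≤
        3 * G * (κ * ∑ j, δ j ^ 2) := by
      rw [a]
      nlinarith
    have e3 := mul_le_mul_of_nonneg_left e2 q2.le
    have e4 := mul_le_mul_of_nonneg_left hE (show 0 ≤ 3 * G by linarith)
    nlinarith
  refine ⟨fun t ht => ?_, ?_⟩
  · have a : ∀ σ, 0 ≤ T σ + G / 2 * (t * R σ) + G ^ 2 / 16 * E σ := fun σ => by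
      refine (psd_prod hν hy (G / 4) c (fun j => t * ep σ j)
        fun j => e j + ep σ j * δ j).trans_eq ?_
      simp only [T, R, E, mul_sum, ← sum_add_distrib]
      refine sum_congr rfl fun Q _ => ?_
      simp only [mul_assoc t, ← mul_sum]
      linear_combination ν Q * D σ Q ^ 2 * s σ Q ^ 2 * ht
    have b : 0 ≤ ∑ σ, T σ + G / 2 * (t * ∑ σ, R σ) + G ^ 2 / 16 * ∑ σ, E σ := by
      simp only [mul_sum (s := univ (α := Finset K)) (f := R), mul_sum (f := E),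
        mul_sum (f := fun σ => t * R σ), ← sum_add_distrib]
      exact sum_nonneg fun σ _ => a σ
    have e1 : ∑ σ : Finset K, ∑ Q, ν Q * (s σ Q ^ 2 * ((W Q + t * D σ Q) / 2 - k)) =
        1 / 2 * ∑ σ, P σ + t / 2 * ∑ σ, R σ - k * ∑ σ, E σ := by
      simp only [P, R, E, mul_sum, ← sum_add_distrib, ← sum_sub_distrib]
      exact sum_congr rfl fun σ _ => sum_congr rfl fun Q _ => by ring
    refine le_of_le_of_eq ?_ e1.symm
    have e2 : -((10 + G / 8) * ∑ σ, E σ) ≤ t * ∑ σ, R σ := by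
      refine le_of_mul_le_mul_left ?_ (show 0 < G / 2 by linarith)
      nlinarith
    nlinarith [mul_le_mul_of_nonneg_right hk hE0, mul_le_mul_of_nonneg_right hG hE0]
  · have a : ∀ σ, 0 ≤ ∑ Q, ν Q * ((W Q / 2 - 3 / 8 * G) * s σ Q) ^ 2 := fun σ => by
      refine (psd_prod hν hy (-(3 / 8 * G)) c (fun _ => 1 / 2)
        fun j => e j + ep σ j * δ j).trans_eq (sum_congr rfl fun Q _ => ?_)
      simp only [← mul_sum, W, s]
      ring
    have e1 : ∑ σ : Finset K, ∑ Q, ν Q * (s σ Q ^ 2 *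
        (((W Q + D σ Q) / 2 - k) * ((W Q - D σ Q) / 2 - k))) =
        ∑ σ, ∑ Q, ν Q * ((W Q / 2 - 3 / 8 * G) * s σ Q) ^ 2 + (3 / 8 * G - k) * ∑ σ, P σ +
          ((3 / 8 * G - k) ^ 2 - (3 / 8 * G - k) * (3 / 4 * G)) * ∑ σ, E σ -
            1 / 4 * ∑ σ, T σ := by
      simp only [P, T, E, mul_sum, ← sum_add_distrib, ← sum_sub_distrib]
      exact sum_congr rfl fun σ _ => sum_congr rfl fun Q _ => by ring
    refine le_of_le_of_eq ?_ e1.symm
    have b := sum_nonneg (s := univ) fun σ _ => a σ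
    have m : G / 8 ≤ 3 / 8 * G - k := by linarith
    have b1 := mul_le_mul_of_nonneg_left hP1 (show 0 ≤ 3 / 8 * G - k by linarith)
    have b2 : 5 / 4 * G ≤ (3 / 8 * G - k) ^ 2 := by nlinarith
    nlinarith [mul_le_mul_of_nonneg_right b2 hE0]

end Pool.Agent.P.MP_4600d4_nt
end

-- part Pool.Agent.P.MP_4600d4_nt.Split
section

/-! The signed weight on pairs of sets obtained by splitting a clique at random. -/

namespace Pool.Agent.P.MP_4600d4_nt

open Finset Pool.Agent.P.MP_9484ad_co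

variable {K : Type*} [Field K] [DecidableEq K] [Fintype K]

/-- The second half of the split, with signs changed. -/
def oth (σ Q : Finset K) : Finset K := (Q \ σ).image fun x => -x

/-- The weight of a pair. -/
noncomputable def wt (ν : Finset K → ℝ) (A B : Finset K) : ℝ :=
  ∑ σ : Finset K, ∑ Q, if Q ∩ σ = A ∧ oth σ Q = B then ν Q / 2 ^ Fintype.card K else 0

theorem wt_sum (ν : Finset K → ℝ) (F : Finset K → Finset K → ℝ) :
    ∑ A, ∑ B, wt ν A B * F A B =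
      (∑ σ : Finset K, ∑ Q, ν Q * F (Q ∩ σ) (oth σ Q)) / 2 ^ Fintype.card K := by
  simp only [wt, sum_mul, sum_div]
  rw [← Fintype.sum_prod_type', sum_comm]
  refine sum_congr rfl fun σ _ => ?_
  rw [sum_comm]
  refine sum_congr rfl fun Q _ => ?_
  rw [sum_eq_single (Q ∩ σ, oth σ Q)]
  · simp only [and_self, if_true]; ring
  · rintro ⟨A, B⟩ - h
    rw [if_neg, zero_mul]
    rintro ⟨rfl, rfl⟩
    exact h rfl
  · simp

omit [Fintype K] in
theorem mem_oth {σ Q : Finset K} {b : K} : b ∈ oth σ Q ↔ -b ∈ Q ∧ -b ∉ σ := by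
  simp only [oth, mem_image, mem_sdiff]
  exact ⟨fun ⟨x, h, e⟩ => by simpa [← e] using h, fun h => ⟨-b, h, neg_neg b⟩⟩

theorem sum_split (σ Q : Finset K) (u : K ⊕ K → ℝ) :
    ∑ i ∈ (Q ∩ σ).disjSum (oth σ Q), u i =
      ∑ i, Sum.elim (ix σ) (fun b => 1 - ix σ (-b)) i * u i * ix Q (Sum.elim id (fun b => -b) i) := by
  rw [← sum_subset (subset_univ ((Q ∩ σ).disjSum (oth σ Q)))]
  · refine sum_congr rfl ?_
    rintro (a | b) h
    · rw [inl_mem_disjSum, mem_inter] at h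
      simp [ix, h.1, h.2]
    · rw [inr_mem_disjSum, mem_oth] at h
      simp [ix, h.1, h.2]
  · rintro (a | b) - h
    · rw [inl_mem_disjSum, mem_inter] at h
      by_cases h1 : a ∈ Q <;> simp_all [ix]
    · rw [inr_mem_disjSum, mem_oth] at h
      by_cases h1 : -b ∈ Q <;> simp_all [ix]

theorem sum_split' (σ Q : Finset K) (u : K ⊕ K → ℝ) :
    ∑ i ∈ (Q ∩ σ).disjSum (oth σ Q), u i = ∑ j, ((u (.inl j) + u (.inr (-j))) / 2 +
      ep σ j * ((u (.inl j) - u (.inr (-j))) / 2)) * ix Q j := by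
  rw [sum_split, Fintype.sum_sum_type, ← Equiv.sum_comp (Equiv.neg K) fun b => _ * u (.inr b) * _,
    ← sum_add_distrib]
  refine sum_congr rfl fun j _ => ?_
  by_cases h : j ∈ σ <;> simp [ix, ep, h] <;> split_ifs <;> ring

theorem card_fst (σ Q : Finset K) :
    (#(Q ∩ σ) : ℝ) = (∑ j, ix Q j + 1 * ∑ j, ep σ j * ix Q j) / 2 := by
  have := sum_split' σ Q (Sum.elim (fun _ => 1) fun _ => 0)
  simp only [sum_disjSum, Sum.elim_inl, Sum.elim_inr, sum_const, smul_zero, add_zero,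
    nsmul_eq_mul, mul_one] at this
  rw [this, one_mul, ← sum_add_distrib, sum_div]
  exact sum_congr rfl fun j _ => by ring

theorem card_snd (σ Q : Finset K) :
    (#(oth σ Q) : ℝ) = (∑ j, ix Q j + -1 * ∑ j, ep σ j * ix Q j) / 2 := by
  have := sum_split' σ Q (Sum.elim (fun _ => 0) fun _ => 1)
  simp only [sum_disjSum, Sum.elim_inl, Sum.elim_inr, sum_const, smul_zero, zero_add,
    nsmul_eq_mul, mul_one] at this
  rw [this, mul_sum, ← sum_add_distrib, sum_div]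
  exact sum_congr rfl fun j _ => by ring

theorem barrier (hK : ringChar K ≠ 2) (h1 : IsSquare (-1 : K)) {κ C r : ℝ}
    (hy : ∀ c : Finset K → ℝ, (∀ S : Finset K, 2 < S.card → c S = 0) →
      0 ≤ ∑ S, ∑ T, c S * c T * mom κ C (S ∪ T)) (hκ : 0 ≤ κ) (hr : 1 ≤ r)
    (hq : r ^ 2 = Fintype.card K) (ht : κ * r ≤ 1 / 1000) (hG : 80 ≤ κ * r ^ 2)
    {k : ℝ} (hk : k ≤ κ * r ^ 2 / 4) :
    ∃ μ : Finset K → Finset K → ℝ,
      ∑ A, ∑ B, μ A B = 1 ∧
      (∀ A B, μ A B ≠ 0 → ∀ a ∈ A, ∀ b ∈ B, a + b ≠ 0 ∧ IsSquare (a + b)) ∧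
      (∀ (c : ℝ) (u : K ⊕ K → ℝ) (w : K ⊕ K → K ⊕ K → ℝ),
        0 ≤ ∑ A, ∑ B, μ A B * (c + ∑ i ∈ A.disjSum B, u i +
          ∑ i ∈ A.disjSum B, ∑ j ∈ A.disjSum B, w i j) ^ 2) ∧
      ∀ (c : ℝ) (u : K ⊕ K → ℝ),
        0 ≤ ∑ A, ∑ B, μ A B * ((c + ∑ i ∈ A.disjSum B, u i) ^ 2 * (#A - k)) ∧
        0 ≤ ∑ A, ∑ B, μ A B * ((c + ∑ i ∈ A.disjSum B, u i) ^ 2 * (#B - k)) ∧
        0 ≤ ∑ A, ∑ B, μ A B * ((c + ∑ i ∈ A.disjSum B, u i) ^ 2 * ((#A - k) * (#B - k))) := by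
  obtain ⟨ν, hν, h0⟩ := exists_nu (mom κ C : Finset K → ℝ)
  have q2 : (0 : ℝ) < 2 ^ Fintype.card K := by positivity
  refine ⟨wt ν, ?_, fun A B h a ha b hb => ?_, fun c u w => ?_, fun c u => ?_⟩
  · have := wt_sum ν fun _ _ => 1
    simp only [mul_one, nu0 hν, sum_const, card_univ, Fintype.card_finset, nsmul_eq_mul] at this
    rw [this]
    push_cast
    exact div_self q2.ne'
  · obtain ⟨σ, -, h⟩ := exists_ne_zero_of_sum_ne_zero h
    obtain ⟨Q, -, h⟩ := exists_ne_zero_of_sum_ne_zero h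
    obtain ⟨⟨rfl, rfl⟩, h'⟩ := ite_ne_right_iff.1 h
    rw [mem_inter] at ha
    rw [mem_oth] at hb
    have n : a ≠ -b := fun e => hb.2 (e ▸ ha.2)
    have n' : a + b ≠ 0 := fun e => n (eq_neg_of_add_eq_zero_left e)
    refine ⟨n', by_contra fun hs => h' ?_⟩
    have g : sg a (-b) ≠ 1 := fun e => hs (by
      rw [sg, sub_neg_eq_add] at e
      exact (quadraticChar_one_iff_isSquare n').1 (by exact_mod_cast e))
    rw [h0 Q fun T hT => mom_nonedge (hT ha.1) (hT hb.1) n g, zero_div]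
  · rw [wt_sum]
    refine div_nonneg (sum_nonneg fun σ _ => ?_) q2.le
    let h : K ⊕ K → ℝ := Sum.elim (ix σ) fun b => 1 - ix σ (-b)
    refine (psd_quad hν hy (Sum.elim id fun b => -b) c (fun i => h i * u i)
      fun i j => h i * h j * w i j).trans_eq (sum_congr rfl fun Q _ => ?_)
    simp only [sum_split, mul_sum, sum_mul]
    congr 3
    exact sum_congr rfl fun i _ => sum_congr rfl fun j _ => by ring
  · obtain ⟨a, b⟩ := core hK h1 hν hy hκ hr hq ht hG hk c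
      (fun j => (u (.inl j) + u (.inr (-j))) / 2) fun j => (u (.inl j) - u (.inr (-j))) / 2
    simp only [wt_sum, sum_split', card_fst, card_snd]
    refine ⟨div_nonneg (a 1 (by norm_num)) q2.le, div_nonneg (a (-1) (by norm_num)) q2.le,
      div_nonneg ?_ q2.le⟩
    simpa only [one_mul, neg_mul, ← sub_eq_add_neg] using b

end Pool.Agent.P.MP_4600d4_nt
end
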