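import Mathlib

-- part Pool.Agent.P.MP_4600d4_nt.SsgRun
section

set_option autoImplicit false

open Polynomial Finset

namespace Pool.Agent.P.MP_4600d4_nt.Ssg

variable {F : Type*} [Field F]

/-- `run F a n = ∏_{i<n} (Y + (a+i))`. -/
noncomputable def run (F : Type*) [Field F] (a n : ℕ) : F[X] :=
  ∏ i ∈ range n, (X + C ((a + i : ℕ) : F))

/-- the cofactor of degree `n-1` in `run (a+i) len = cof * run (a+n-1) (len-(n-1))`. -/
noncomputable def cof (F : Type*) [Field F] (a len n i : ℕ) : F[X] :=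
  run F (a + i) (n - 1 - i) * run F (a + len) i

/-- `Cp F s d k = ∏_{j<k} (Y + (s+j) d)`. -/
noncomputable def Cp (F : Type*) [Field F] (s d k : ℕ) : F[X] :=
  ∏ j ∈ range k, (X + C (((s + j) * d : ℕ) : F))

theorem run_monic (a n : ℕ) : (run F a n).Monic :=
  monic_prod_of_monic _ _ fun _ _ => monic_X_add_C _

theorem run_ne_zero (a n : ℕ) : run F a n ≠ 0 := (run_monic a n).ne_zero

theorem natDegree_run (a n : ℕ) : (run F a n).natDegree = n := by
  unfold run
  rw [natDegree_prod_of_monic _ _ fun _ _ => monic_X_add_C _]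
  simp only [natDegree_X_add_C, sum_const, card_range, smul_eq_mul, mul_one]

theorem run_zero (a : ℕ) : run F a 0 = 1 := by simp [run]

theorem run_add (a m n : ℕ) : run F a (m + n) = run F a m * run F (a + m) n := by
  unfold run
  rw [prod_range_add]
  simp only [add_assoc]

theorem run_succ (a n : ℕ) : run F a (n + 1) = run F a n * (X + C ((a + n : ℕ) : F)) := by
  unfold run
  rw [prod_range_succ]

theorem taylor_prod {ι : Type*} (s : Finset ι) (f : ι → F[X]) (h : F) :
    taylor h (∏ i ∈ s, f i) = ∏ i ∈ s, taylor h (f i) :=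
  map_prod (taylorAlgHom h) f s

theorem taylor_run (a n h : ℕ) : taylor (h : F) (run F a n) = run F (a + h) n := by
  unfold run
  rw [taylor_prod]
  refine prod_congr rfl fun i _ => ?_
  rw [map_add, taylor_X, taylor_C, add_assoc, ← C_add]
  congr 2
  push_cast
  ring

theorem eval_run (a n : ℕ) (x : F) :
    (run F a n).eval x = ∏ i ∈ range n, (x + ((a + i : ℕ) : F)) := by
  unfold run
  rw [eval_prod]
  simp only [eval_add, eval_X, eval_C]

theorem eval_run_eq_zero {a n y : ℕ} (h1 : a ≤ y) (h2 : y < a + n) :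
    (run F a n).eval (-(y : F)) = 0 := by
  rw [eval_run]
  refine prod_eq_zero (i := y - a) (mem_range.2 (by omega)) ?_
  rw [show a + (y - a) = y by omega]
  ring

theorem cast_ne_cast (p : ℕ) [CharP F p] {a b : ℕ} (hab : a < b) (hp : b < a + p) :
    (a : F) ≠ (b : F) := by
  intro h
  have h1 := (CharP.natCast_eq_natCast F p).1 h
  have h2 := (Nat.modEq_iff_dvd' hab.le).1 h1
  have := Nat.le_of_dvd (by omega) h2
  omega

theorem eval_run_ne_zero (p : ℕ) [CharP F p] {a n y : ℕ} (h1 : a + n ≤ y) (h2 : y < a + p) :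
    (run F a n).eval (-(y : F)) ≠ 0 := by
  rw [eval_run]
  refine prod_ne_zero_iff.2 fun i hi h => ?_
  have hi' := mem_range.1 hi
  refine cast_ne_cast (F := F) p (a := a + i) (b := y) (by omega) (by omega) ?_
  linear_combination h

theorem prod_pow_dvd {ι : Type*} (s : Finset ι) (x : ι → F) (hx : Set.InjOn x s) (e : ℕ)
    (f : F[X]) (h : ∀ i ∈ s, (X - C (x i)) ^ e ∣ f) : (∏ i ∈ s, (X - C (x i)) ^ e) ∣ f := by
  refine Finset.prod_dvd_of_coprime ?_ h
  intro i hi j hj hij
  exact (isCoprime_X_sub_C_of_isUnit_sub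
    (sub_ne_zero.2 fun h => hij (hx hi hj h)).isUnit).pow

theorem run_dvd (p : ℕ) [CharP F p] {a n : ℕ} (hn : n ≤ p) (f : F[X])
    (h : ∀ y : ℕ, a ≤ y → y < a + n → f.eval (-(y : F)) = 0) : run F a n ∣ f := by
  have := prod_pow_dvd (range n) (fun i => -((a + i : ℕ) : F)) ?_ 1 f ?_
  · simpa [run, sub_eq_add_neg] using this
  · intro i hi j hj hij
    have hi' := mem_range.1 (mem_coe.1 hi)
    have hj' := mem_range.1 (mem_coe.1 hj)
    have h0 : ((a + i : ℕ) : F) = ((a + j : ℕ) : F) := neg_injective hij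
    rcases lt_trichotomy i j with h1 | h1 | h1
    · exact absurd h0 (cast_ne_cast p (by omega) (by omega))
    · exact h1
    · exact absurd h0.symm (cast_ne_cast p (by omega) (by omega))
  · intro i hi
    rw [pow_one, dvd_iff_isRoot]
    exact h _ (by omega) (by have := mem_range.1 hi; omega)

theorem run_eq_cof {a len n i : ℕ} (hi : i < n) (hn : n ≤ len + 1) :
    run F (a + i) len = cof F a len n i * run F (a + n - 1) (len - (n - 1)) := by
  have e : len = (n - 1 - i) + ((len - (n - 1)) + i) := by omega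
  conv_lhs => rw [e]
  rw [run_add, run_add, cof, show a + i + (n - 1 - i) = a + n - 1 by omega,
    show a + n - 1 + (len - (n - 1)) = a + len by omega]
  ring

theorem natDegree_cof {a len n i : ℕ} (hi : i < n) : (cof F a len n i).natDegree = n - 1 := by
  rw [cof, (run_monic _ _).natDegree_mul (run_monic _ _), natDegree_run, natDegree_run]
  omega

theorem taylor_cof (a len n i h : ℕ) :
    taylor (h : F) (cof F a len n i) = cof F (a + h) len n i := by
  rw [cof, taylor_mul, taylor_run, taylor_run, cof]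
  congr 2 <;> omega

theorem Cp_monic (s d k : ℕ) : (Cp F s d k).Monic :=
  monic_prod_of_monic _ _ fun _ _ => monic_X_add_C _

theorem natDegree_Cp (s d k : ℕ) : (Cp F s d k).natDegree = k := by
  unfold Cp
  rw [natDegree_prod_of_monic _ _ fun _ _ => monic_X_add_C _]
  simp only [natDegree_X_add_C, sum_const, card_range, smul_eq_mul, mul_one]

theorem eval_Cp_eq_zero {s d k j : ℕ} (hj : j < k) :
    (Cp F s d k).eval (-(((s + j) * d : ℕ) : F)) = 0 := by
  unfold Cp
  rw [eval_prod]
  exact prod_eq_zero (i := j) (mem_range.2 hj) (by simp)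

/-- the `n` cofactors are linearly independent over the constants -/
theorem cof_linearIndependent (p : ℕ) [CharP F p] {a len n : ℕ} (hn : n ≤ len + 1)
    (hp : len + n ≤ p) : LinearIndependent F fun i : Fin n => cof F a len n i := by
  rw [Fintype.linearIndependent_iff]
  intro g hg
  suffices H : ∀ m : ℕ, ∀ i : Fin n, (i : ℕ) = m → g i = 0 from fun i => H i i rfl
  intro m
  induction m using Nat.strong_induction_on with
  | _ m ih =>
    intro i hi
    have h1 := congrArg (eval (-((a + len + m : ℕ) : F))) hg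
    rw [eval_finsetSum, eval_zero, Finset.sum_eq_single i] at h1
    · rw [eval_smul, smul_eq_mul, cof, eval_mul] at h1
      have hi2 := i.2
      have h2 := eval_run_ne_zero (F := F) p (a := a + i) (n := n - 1 - i) (y := a + len + m)
        (by omega) (by omega)
      have h3 := eval_run_ne_zero (F := F) p (a := a + len) (n := i) (y := a + len + m)
        (by omega) (by omega)
      exact (mul_eq_zero.1 h1).resolve_right (mul_ne_zero h2 h3)
    · intro j _ hj
      have hj' : (j : ℕ) ≠ m := fun h => hj (Fin.ext (by omega))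
      rcases lt_or_gt_of_ne hj' with h | h
      · rw [ih j h j rfl, zero_smul, eval_zero]
      · rw [eval_smul, cof, eval_mul, eval_run_eq_zero (a := a + len) (by omega) (by omega)]
        simp
    · intro h
      exact absurd (mem_univ i) h

end Pool.Agent.P.MP_4600d4_nt.Ssg
end

-- part Pool.Agent.P.MP_4600d4_nt.SshDefs
section

set_option autoImplicit false

open Polynomial Finset

namespace Pool.Agent.P.MP_4600d4_nt.Ssh

open Pool.Agent.P.MP_4600d4_nt.Ssg

variable {F : Type*} [Field F]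

/-- the four properties of the polynomial attached to one pair -/
structure UGood (D d e : ℕ) (t : F) (u : F[X]) : Prop where
  deg : u.natDegree ≤ D
  per : ∀ y : ℕ, 1 ≤ y → y + e < D → u.eval (-((y + d : ℕ) : F)) = t * u.eval (-(y : F))
  zero : ∀ y : ℕ, 0 < y → y + e < d → u.eval (-(y : F)) = 0
  top : u.eval (-((d - e : ℕ) : F)) ≠ 0

/-- `psi d t u c l = ∑ c_(b,i)(Y) t_b^l u_b(Y + l d - i)` -/
noncomputable def psi {s ν : ℕ} (d : ℕ) (t : Fin s → F) (u : Fin s → F[X])
    (c : Fin s → Fin ν → F[X]) (l : ℕ) : F[X] :=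
  ∑ b : Fin s, ∑ i : Fin ν, c b i * (C (t b ^ l) * taylor (((l * d : ℕ) : F) - ((i : ℕ) : F)) (u b))

/-- `gg u c ρ b = ∑ u_b(-(ρ+i)) c_(b,i)` -/
noncomputable def gg {s ν : ℕ} (u : Fin s → F[X]) (c : Fin s → Fin ν → F[X]) (ρ : ℕ)
    (b : Fin s) : F[X] :=
  ∑ i : Fin ν, C ((u b).eval (-((ρ + (i : ℕ) : ℕ) : F))) * c b i

/-- a polynomial `f` whose values at `-1, …, -Λ` are exponential polynomials along each row -/
structure Fam {s : ℕ} (D d n h Λ : ℕ) (t : Fin s → F) (f : F[X]) (g : ℕ → Fin s → F[X]) :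
    Prop where
  degf : f.natDegree ≤ D + h
  degg : ∀ ρ b, (g ρ b).natDegree ≤ h
  val : ∀ ρ k : ℕ, 1 ≤ ρ → ρ ≤ d → ρ + k * d ≤ Λ →
    f.eval (-((ρ + k * d : ℕ) : F)) = ∑ b, t b ^ k * (g ρ b).eval (-((ρ + k * d : ℕ) : F))
  zero : ∀ ρ b, 1 ≤ ρ → ρ + n ≤ d → g ρ b = 0

end Pool.Agent.P.MP_4600d4_nt.Ssh
end

-- part Pool.Agent.P.MP_4600d4_nt.SsgU
section

set_option autoImplicit false

open Polynomial Finset

namespace Pool.Agent.P.MP_4600d4_nt.Ssg

variable {F : Type*} [Field F]

/-- the shift operator -/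
noncomputable def uS (F : Type*) [Field F] : Module.End F F[X] := taylor (-1 : F)

theorem u_pow (j : ℕ) (f : F[X]) : (uS F ^ j) f = taylor (-(j : F)) f := by
  induction j with
  | zero => simp
  | succ j ih =>
    rw [pow_succ', Module.End.mul_apply, ih, uS, taylor_taylor]
    congr 2
    push_cast
    ring

theorem u_step (k : ℕ) : (1 - uS F) (run F 1 (k + 1)) = ((k + 1 : ℕ) : F) • run F 1 k := by
  have e : uS F (run F 1 (k + 1)) = run F 0 (k + 1) := by
    have := taylor_run (F := F) 0 (k + 1) 1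
    rw [zero_add] at this
    rw [← this, uS, taylor_taylor]
    simp
  have e2 : run F 0 (k + 1) = X * run F 1 k := by
    rw [add_comm k 1, run_add]
    simp [run]
  rw [LinearMap.sub_apply, Module.End.one_apply, e, e2, run_succ, smul_eq_C_mul, add_comm 1 k]
  ring

theorem u_nil (k : ℕ) : ((1 - uS F) ^ (k + 1)) (run F 1 k) = 0 := by
  induction k with
  | zero => simp [run_zero, uS]
  | succ k ih => rw [pow_succ, Module.End.mul_apply, u_step, map_smul, ih, smul_zero]

theorem u_aeval (f v : F[X]) (e : ℕ) : (aeval (uS F ^ e) f) v =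
    ∑ j ∈ range (f.natDegree + 1), f.coeff j • taylor (-((e * j : ℕ) : F)) v := by
  rw [aeval_eq_sum_range, LinearMap.sum_apply]
  refine sum_congr rfl fun j _ => ?_
  rw [LinearMap.smul_apply, ← pow_mul, u_pow]

/-- Step 1: the polynomial `u` on the coefficient side. -/
theorem exists_u {D d s : ℕ} (P Q : F[X]) (ε : F) (hP0 : P ≠ 0) (hP : P.natDegree = s)
    (hd : 1 ≤ d) (hε : ε ≠ 0) (hD : (D : F) ≠ 0)
    (h : (1 - X) ^ (D + 1) - C ε * (1 - X) = expand F d P * Q) :
    s * d ≤ D + 1 ∧ ∃ (u : F[X]) (c : F), c ≠ 0 ∧ u.natDegree ≤ D ∧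
      (∑ j ∈ range (s + 1), C (P.coeff j) * taylor ((((s - j) * d : ℕ)) : F) u
        = C c * run F (s * d + 1) (D - 1)) ∧
      ∀ y : ℕ, 0 < y → y < D + s * d → (¬ d ∣ y ∨ y < s * d) → u.eval (-(y : F)) = 0 := by
  obtain ⟨k, rfl⟩ : ∃ k, D = k + 1 := ⟨D - 1, by
    rcases D with _ | D
    · simp at hD
    · rfl⟩
  obtain ⟨u, hu⟩ : ∃ u, u = (aeval (uS F) Q) (run F 1 (k + 1)) := ⟨_, rfl⟩
  have hc : -(ε * ((k + 1 : ℕ) : F)) ≠ 0 := neg_ne_zero.2 (mul_ne_zero hε hD)
  have R : (aeval (uS F ^ d) P) u = (-(ε * ((k + 1 : ℕ) : F))) • run F 1 k := by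
    have := congrArg (fun f => (aeval (uS F) f) (run F 1 (k + 1))) h
    simp only [map_sub, map_mul, map_pow, map_one, aeval_X, aeval_C, expand_aeval,
      Module.End.mul_apply] at this
    rw [LinearMap.sub_apply, u_nil, Module.End.mul_apply, u_step, Module.algebraMap_end_apply,
      ← hu] at this
    rw [← this, smul_smul, zero_sub, neg_smul]
  have hQ : Q ≠ 0 := by
    rintro rfl
    rw [map_zero, LinearMap.zero_apply] at hu
    rw [hu, map_zero] at R
    exact smul_ne_zero hc (run_ne_zero 1 k) R.symm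
  have hdeg : s * d + Q.natDegree ≤ k + 1 + 1 := by
    have a : (1 - X : F[X]).natDegree ≤ 1 := by compute_degree
    rw [← hP, ← natDegree_expand, ← natDegree_mul ((expand_ne_zero hd).2 hP0) hQ, ← h]
    refine (natDegree_sub_le _ _).trans (max_le ?_ ?_)
    · exact natDegree_pow_le.trans (by nlinarith)
    · exact (natDegree_C_mul_le _ _).trans (by omega)
  have hu' := u_aeval Q (run F 1 (k + 1)) 1
  rw [pow_one, ← hu] at hu'
  have rel : ∑ j ∈ range (s + 1), C (P.coeff j) * taylor ((((s - j) * d : ℕ)) : F) u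
      = C (-(ε * ((k + 1 : ℕ) : F))) * run F (s * d + 1) (k + 1 - 1) := by
    have := congrArg (taylor ((s * d : ℕ) : F)) R
    rw [u_aeval, hP, map_sum, map_smul, taylor_run, smul_eq_C_mul, add_comm 1] at this
    rw [add_tsub_cancel_right, ← this]
    refine sum_congr rfl fun j hj => ?_
    obtain ⟨t, rfl⟩ := Nat.exists_eq_add_of_le (Nat.lt_succ_iff.1 (mem_range.1 hj))
    rw [map_smul, taylor_taylor, smul_eq_C_mul, add_tsub_cancel_left]
    congr 3
    push_cast
    ring
  refine ⟨by omega, u, _, hc, ?_, rel, fun y => ?_⟩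
  · rw [hu']
    refine natDegree_sum_le_of_forall_le _ _ fun j _ => (natDegree_smul_le _ _).trans ?_
    rw [natDegree_taylor, natDegree_run]
  induction y using Nat.strong_induction_on with
  | _ y ih =>
    intro y0 y1 y2
    by_cases hy : y < s * d
    · rw [hu', eval_finsetSum]
      refine sum_eq_zero fun j hj => ?_
      have := mem_range.1 hj
      rw [eval_smul, taylor_eval, one_mul, ← neg_add, ← Nat.cast_add,
        eval_run_eq_zero (by omega) (by omega), smul_zero]
    have nd : ¬ d ∣ y := y2.resolve_right hy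
    have y3 : s * d + 1 ≤ y := by
      rcases Nat.eq_or_lt_of_le (not_lt.1 hy) with e | e
      · exact absurd (e ▸ dvd_mul_left d s) nd
      · exact e
    have := congrArg (eval (-(y : F))) rel
    rw [eval_mul, eval_run_eq_zero y3 (by omega), mul_zero, eval_finsetSum, sum_range_succ,
      sum_eq_zero fun j hj => ?_, zero_add, Nat.sub_self, zero_mul, Nat.cast_zero, taylor_zero,
      eval_mul, eval_C] at this
    · refine (mul_eq_zero.1 this).resolve_left ?_
      rw [← hP]
      exact leadingCoeff_ne_zero.2 hP0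
    · have j1 := mem_range.1 hj
      have a1 : (s - j) * d ≤ s * d := Nat.mul_le_mul_right d (by omega)
      have a2 : 0 < (s - j) * d := Nat.mul_pos (by omega) hd
      obtain ⟨w, hw⟩ := Nat.exists_eq_add_of_le (show (s - j) * d ≤ y by omega)
      have e : -(y : F) + (((s - j) * d : ℕ) : F) = -(w : F) := by
        rw [hw, Nat.cast_add]
        ring
      rw [eval_mul, taylor_eval, e, ih w (by omega) (by omega) (by omega)
        (Or.inl fun hd' => nd (hw ▸ dvd_add (dvd_mul_left d _) hd')), mul_zero]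

end Pool.Agent.P.MP_4600d4_nt.Ssg
end

-- part Pool.Agent.P.MP_4600d4_nt.SshU
section

set_option autoImplicit false

open Polynomial Finset

namespace Pool.Agent.P.MP_4600d4_nt.Ssh

open Pool.Agent.P.MP_4600d4_nt.Ssg

variable {F : Type*} [Field F]

/-- Step 1. -/
theorem exists_ugood (p : ℕ) [CharP F p] {D d e : ℕ} (E Q : F[X]) (t ε : F) (hE0 : E ≠ 0)
    (hE : E.natDegree = e) (hD : 1 ≤ D) (hDp : D < p) (hed : e < d)
    (h : E * ((1 - X) ^ (D + 1) - C ε * (1 - X)) = (X ^ d - C t) * Q) :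
    d ≤ D + 1 + e ∧ ∃ u : F[X], UGood D d e t u := by
  obtain ⟨k, rfl⟩ : ∃ k, D = k + 1 := ⟨D - 1, by omega⟩
  obtain ⟨u, hu⟩ : ∃ u, u = (aeval (uS F) Q) (run F 1 (k + 1)) := ⟨_, rfl⟩
  have R : (uS F ^ d) u - t • u =
      (-(ε * ((k + 1 : ℕ) : F))) • (aeval (uS F) E) (run F 1 k) := by
    have := congrArg (fun f => (aeval (uS F) f) (run F 1 (k + 1))) h
    simp only [map_sub, map_mul, map_pow, map_one, aeval_X, aeval_C,
      Module.End.mul_apply] at this
    rw [LinearMap.sub_apply, u_nil, Module.End.mul_apply, u_step, Module.algebraMap_end_apply,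
      ← hu, LinearMap.sub_apply, Module.algebraMap_end_apply] at this
    rw [← this, smul_smul, zero_sub, map_neg, map_smul, neg_smul]
  have a1 : (1 - X : F[X]).natDegree = 1 := by
    rw [show (1 - X : F[X]) = -(X - C 1) by simp, natDegree_neg, natDegree_X_sub_C]
  have a2 : ((1 - X : F[X]) ^ (k + 1 + 1)).natDegree = k + 1 + 1 := by
    rw [natDegree_pow, a1, mul_one]
  have a3 : ((1 - X : F[X]) ^ (k + 1 + 1) - C ε * (1 - X)).natDegree = k + 1 + 1 := by
    rw [natDegree_sub_eq_left_of_natDegree_lt, a2]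
    rw [a2]
    exact lt_of_le_of_lt (natDegree_C_mul_le _ _) (by omega)
  have a4 : ((1 - X : F[X]) ^ (k + 1 + 1) - C ε * (1 - X)) ≠ 0 := by
    intro h0
    rw [h0] at a3
    simp at a3
  have a5 : (X ^ d - C t : F[X]) * Q ≠ 0 := h ▸ mul_ne_zero hE0 a4
  have hQ : Q ≠ 0 := right_ne_zero_of_mul a5
  have hdeg : e + (k + 1 + 1) = d + Q.natDegree := by
    have := congrArg natDegree h
    rwa [natDegree_mul hE0 a4, natDegree_mul (left_ne_zero_of_mul a5) hQ, a3, hE,
      natDegree_X_pow_sub_C] at this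
  have hu' := u_aeval Q (run F 1 (k + 1)) 1
  rw [pow_one, ← hu] at hu'
  have hE' := u_aeval E (run F 1 k) 1
  rw [pow_one, hE] at hE'
  refine ⟨by omega, u, ?_, fun y y0 y1 => ?_, fun y y0 y1 => ?_, ?_⟩
  · rw [hu']
    refine natDegree_sum_le_of_forall_le _ _ fun j _ => (natDegree_smul_le _ _).trans ?_
    rw [natDegree_taylor, natDegree_run]
  · have h1 := congrArg (eval (-(y : F))) R
    have h2 : ((aeval (uS F) E) (run F 1 k)).eval (-(y : F)) = 0 := by
      rw [hE', eval_finsetSum]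
      refine sum_eq_zero fun j hj => ?_
      have := mem_range.1 hj
      rw [eval_smul, taylor_eval, one_mul, ← neg_add, ← Nat.cast_add,
        eval_run_eq_zero (by omega) (by omega), smul_zero]
    rw [eval_sub, eval_smul, eval_smul, h2, smul_zero, u_pow, taylor_eval, ← neg_add,
      ← Nat.cast_add, smul_eq_mul] at h1
    exact sub_eq_zero.1 h1
  · rw [hu', eval_finsetSum]
    refine sum_eq_zero fun j hj => ?_
    have := mem_range.1 hj
    rw [eval_smul, taylor_eval, one_mul, ← neg_add, ← Nat.cast_add,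
      eval_run_eq_zero (by omega) (by omega), smul_zero]
  · rw [hu', eval_finsetSum, sum_range_succ, sum_eq_zero fun j hj => ?_, zero_add, eval_smul,
      taylor_eval, one_mul, ← neg_add, ← Nat.cast_add, smul_eq_mul]
    · exact mul_ne_zero (leadingCoeff_ne_zero.2 hQ) (eval_run_ne_zero p (by omega) (by omega))
    · have := mem_range.1 hj
      rw [eval_smul, taylor_eval, one_mul, ← neg_add, ← Nat.cast_add,
        eval_run_eq_zero (by omega) (by omega), smul_zero]

end Pool.Agent.P.MP_4600d4_nt.Ssh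
end

-- part Pool.Agent.P.MP_4600d4_nt.SsgDet
section

set_option autoImplicit false

open Polynomial Finset

namespace Pool.Agent.P.MP_4600d4_nt.Ssg

variable {F : Type*} [Field F]

/-- `S` independent vectors in the kernel of `M(x)` give a zero of order `S` of `det M`. -/
theorem pow_dvd_det {N S : ℕ} (M : Matrix (Fin N) (Fin N) F[X]) (x : F) (v : Fin S → Fin N → F)
    (hv : LinearIndependent F v) (h : ∀ j b, ∑ a, (M b a).eval x * v j a = 0) :
    (X - C x) ^ S ∣ M.det := by
  classical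
  obtain ⟨W', hW⟩ := Submodule.exists_isCompl (Submodule.span F (Set.range v))
  let b1 := Module.Basis.span hv
  let b2 := Module.finBasis F W'
  let bb := (b1.prod b2).map (Submodule.prodEquivOfIsCompl _ _ hW)
  have hb : ∀ j, bb (Sum.inl j) = v j := by
    intro j
    simp [bb, b1, Submodule.coe_prodEquivOfIsCompl', Module.Basis.span_apply]
  have hcard : Fintype.card (Fin S ⊕ Fin (Module.finrank F W')) = Fintype.card (Fin N) := by
    rw [← Module.finrank_eq_card_basis bb]; simp
  let σ := Fintype.equivOfCardEq hcard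
  let P : Matrix (Fin N) (Fin N) F := fun a c => bb (σ.symm c) a
  have hP : IsUnit P := by
    rw [← Matrix.linearIndependent_cols_iff_isUnit]
    exact bb.linearIndependent.comp σ.symm σ.symm.injective
  let d : Fin N → F[X] := fun c => Sum.elim (fun _ => X - C x) (fun _ => 1) (σ.symm c)
  have hd : ∀ b c, d c ∣ (M * P.map C) b c := by
    intro b c
    obtain ⟨i, rfl⟩ := σ.surjective c
    rcases i with j | j
    · simp only [d, Equiv.symm_apply_apply, Sum.elim_inl]
      rw [dvd_iff_isRoot, IsRoot.def, Matrix.mul_apply, eval_finsetSum]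
      rw [← h j b]
      refine Finset.sum_congr rfl fun a _ => ?_
      have h3 : P a (σ (Sum.inl j)) = v j a := by simp only [P, Equiv.symm_apply_apply, hb]
      rw [eval_mul, Matrix.map_apply, eval_C, h3]
    · simp [d]
  choose A' hA' using hd
  have hA : M * P.map C = Matrix.of A' * Matrix.diagonal d := by
    ext1 b c
    rw [Matrix.mul_diagonal, hA', Matrix.of_apply, mul_comm]
  have hprod : ∏ c, d c = (X - C x) ^ S := by
    rw [← Equiv.prod_comp σ]
    simp [d, Fintype.prod_sum_type]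
  have hdet : M.det * C P.det = (Matrix.of A').det * (X - C x) ^ S := by
    have := congrArg Matrix.det hA
    rw [Matrix.det_mul, Matrix.det_mul, Matrix.det_diagonal, hprod] at this
    rw [← this]
    congr 1
    exact RingHom.map_det (C : F →+* F[X]) P
  have hu : IsUnit (C P.det : F[X]) := ((Matrix.isUnit_iff_isUnit_det P).1 hP).map C
  exact (hu.dvd_mul_right).1 ⟨_, by rw [hdet, mul_comm]⟩

theorem natDegree_det_le_mul {N : ℕ} (M : Matrix (Fin N) (Fin N) F[X]) (e : ℕ)
    (h : ∀ b a, (M b a).natDegree ≤ e) : M.det.natDegree ≤ N * e := by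
  rw [Matrix.det_apply]
  refine natDegree_sum_le_of_forall_le _ _ fun σ _ => ?_
  have h1 : (∏ i, M (σ i) i).natDegree ≤ N * e := by
    refine (natDegree_prod_le _ _).trans ?_
    refine (Finset.sum_le_sum fun i _ => h (σ i) i).trans ?_
    simp
  rcases Int.units_eq_one_or (Equiv.Perm.sign σ) with h2 | h2
  · simpa [h2] using h1
  · simpa [h2] using h1

/-- Siegel's lemma over `F[Y]` (a dimension count). -/
theorem siegel {n L T E : ℕ} (e : Fin L → Fin n → F[X]) (he : ∀ l i, (e l i).natDegree ≤ E)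
    (hc : L * (T + E + 1) < n * (T + 1)) :
    ∃ Δ : Fin n → F[X], Δ ≠ 0 ∧ (∀ i, (Δ i).natDegree ≤ T) ∧ ∀ l, ∑ i, Δ i * e l i = 0 := by
  have key : ∀ (Δ : Fin n → degreeLT F (T + 1)) (l : Fin L),
      ∑ i, (Δ i : F[X]) * e l i ∈ degreeLT F (T + E + 1) := by
    intro Δ l
    refine Submodule.sum_mem _ fun i _ => ?_
    rw [mem_degreeLT]
    have h1 : (Δ i : F[X]).natDegree ≤ T := by
      have := mem_degreeLT.1 (Δ i).2
      by_cases h0 : (Δ i : F[X]) = 0
      · simp [h0]
      · exact Nat.lt_succ_iff.1 ((natDegree_lt_iff_degree_lt h0).2 this)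
    have h2 : ((Δ i : F[X]) * e l i).natDegree ≤ T + E :=
      natDegree_mul_le.trans (add_le_add h1 (he l i))
    refine degree_le_natDegree.trans_lt ?_
    exact_mod_cast Nat.lt_succ_of_le h2
  let Φ : (Fin n → degreeLT F (T + 1)) →ₗ[F] (Fin L → degreeLT F (T + E + 1)) :=
    { toFun := fun Δ l => ⟨∑ i, (Δ i : F[X]) * e l i, key Δ l⟩
      map_add' := by
        intro a b; ext1 l; apply Subtype.ext
        simp [add_mul, Finset.sum_add_distrib]
      map_smul' := by
        intro r a; ext1 l; apply Subtype.ext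
        simp [Finset.smul_sum] }
  have hfr : ∀ k, Module.finrank F (degreeLT F k) = k := fun k => by
    simpa using (degreeLTEquiv F k).finrank_eq
  have hlt : Module.finrank F (Fin L → degreeLT F (T + E + 1)) <
      Module.finrank F (Fin n → degreeLT F (T + 1)) := by
    simp only [Module.finrank_pi_fintype, hfr, Finset.sum_const, Finset.card_univ,
      Fintype.card_fin, smul_eq_mul]
    exact hc
  obtain ⟨Δ, hΔ, hne⟩ := (Submodule.ne_bot_iff _).1 (LinearMap.ker_ne_bot_of_finrank_lt (f := Φ) hlt)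
  refine ⟨fun i => Δ i, fun h0 => hne ?_, fun i => ?_, fun l => ?_⟩
  · ext1 i
    exact Subtype.ext (congrFun h0 i)
  · have := mem_degreeLT.1 (Δ i).2
    by_cases h0 : (Δ i : F[X]) = 0
    · simp [h0]
    · exact Nat.lt_succ_iff.1 ((natDegree_lt_iff_degree_lt h0).2 this)
  · exact congrArg Subtype.val (congrFun (LinearMap.mem_ker.1 hΔ) l)

end Pool.Agent.P.MP_4600d4_nt.Ssg
end

-- part Pool.Agent.P.MP_4600d4_nt.SsgDelta
section

set_option autoImplicit false

open Polynomial Finset

namespace Pool.Agent.P.MP_4600d4_nt.Ssg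

variable {F : Type*} [Field F]

theorem delta_dvd (p : ℕ) [CharP F p] {K d s L : ℕ} (u : F[X]) (hd : 1 ≤ d) (hs : 1 ≤ s)
    (hp : d * K + s * d ≤ p + 1)
    (hz : ∀ y : ℕ, 0 < y → y < d * K + s * d → (¬ d ∣ y ∨ y < s * d) → u.eval (-(y : F)) = 0)
    {l : ℕ} (hl : l < L) :
    run F (l * d + 1) (d * K + s * d - 1) ∣
      Cp F s d (K + L - 1) * taylor ((l * d : ℕ) : F) u := by
  have hsd : 1 ≤ s * d := Nat.mul_pos hs hd
  refine run_dvd p (by omega) _ fun y h1 h2 => ?_
  obtain ⟨y', rfl⟩ : ∃ y', y = l * d + y' := ⟨y - l * d, by omega⟩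
  rw [eval_mul, taylor_eval]
  by_cases hy : ¬ d ∣ y' ∨ y' < s * d
  · have h3 := hz y' (by omega) (by omega) hy
    have h4 : (-((l * d + y' : ℕ) : F) + ((l * d : ℕ) : F)) = -(y' : F) := by
      push_cast
      ring
    rw [h4, h3, mul_zero]
  · push Not at hy
    obtain ⟨⟨k, rfl⟩, hk⟩ := hy
    have hk1 : s ≤ k := by
      by_contra h
      push Not at h
      have := Nat.mul_lt_mul_of_pos_left h (show 0 < d by omega)
      nlinarith
    have hk2 : k < K + s := by
      by_contra h
      push Not at h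
      have h5 := Nat.mul_le_mul_left d h
      have h6 : d * (K + s) = d * K + s * d := by ring
      omega
    obtain ⟨j, rfl⟩ : ∃ j, k = s + j := ⟨k - s, by omega⟩
    have h3 := eval_Cp_eq_zero (F := F) (s := s) (d := d) (k := K + L - 1) (j := j + l)
      (by omega)
    have h4 : l * d + d * (s + j) = (s + (j + l)) * d := by ring
    rw [h4, h3, zero_mul]

/-- Steps 2 and 3. Here `L = J + s`, `n = 2 L`, `Kh = K + L - 1`. -/
theorem exists_delta (p : ℕ) [CharP F p] {K d s J : ℕ} (P u : F[X]) (c : F) (hc : c ≠ 0)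
    (hs : 1 ≤ s) (hK : 1 ≤ K) (hn : 2 * (J + s) ≤ d) (hp : d * K + s * d ≤ p + 1)
    (hu : u.natDegree ≤ d * K)
    (hrel : ∑ j ∈ range (s + 1), C (P.coeff j) * taylor ((((s - j) * d : ℕ)) : F) u
        = C c * run F (s * d + 1) (d * K - 1))
    (hz : ∀ y : ℕ, 0 < y → y < d * K + s * d → (¬ d ∣ y ∨ y < s * d) → u.eval (-(y : F)) = 0) :
    s * d ≤ K + (J + s) ∧ ∃ Δ : Fin (2 * (J + s)) → F[X], Δ ≠ 0 ∧
      (∀ i, (Δ i).natDegree + s * d ≤ (K + (J + s) - 1) + 2 * (J + s)) ∧
      ∀ l : ℕ, l < J → ∑ i : Fin (2 * (J + s)),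
        (Δ i * taylor ((i : ℕ) : F) (Cp F s d (K + (J + s) - 1))) *
          taylor ((l : F) * (d : F)) (cof F (s * d + 1) (d * K - 1) (2 * (J + s)) i) = 0 := by
  classical
  have hd : 1 ≤ d := by omega
  have hsd : d ≤ s * d := Nat.le_mul_of_pos_left d hs
  have hdK : d ≤ d * K := Nat.le_mul_of_pos_right d hK
  have hu0 : u ≠ 0 := by
    intro h
    rw [h] at hrel
    simp only [map_zero, mul_zero, sum_const_zero] at hrel
    exact mul_ne_zero (C_ne_zero.2 hc) (run_ne_zero _ _) hrel.symm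
  have hv : ∀ l : Fin (J + s), ∃ v : F[X], Cp F s d (K + (J + s) - 1) *
      taylor (((l : ℕ) * d : ℕ) : F) u = run F (l * d + 1) (d * K + s * d - 1) * v :=
    fun l => delta_dvd p u hd hs hp hz l.2
  choose v hv using hv
  have hdeg : ∀ l, (d * K + s * d - 1) + (v l).natDegree ≤ (K + (J + s) - 1) + d * K := by
    intro l
    have h0 : taylor (((l : ℕ) * d : ℕ) : F) u ≠ 0 := by
      intro h
      exact hu0 (taylor_injective _ (by rw [h, map_zero]))
    have h1 : v l ≠ 0 := by
      intro h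
      have := hv l
      rw [h, mul_zero] at this
      exact mul_ne_zero (Cp_monic _ _ _).ne_zero h0 this
    have h2 := congrArg natDegree (hv l)
    rw [natDegree_mul (Cp_monic _ _ _).ne_zero h0, natDegree_mul (run_ne_zero _ _) h1,
      natDegree_Cp, natDegree_run, natDegree_taylor] at h2
    omega
  have hfirst : s * d ≤ K + (J + s) := by
    have := hdeg ⟨0, by omega⟩
    omega
  refine ⟨hfirst, ?_⟩
  obtain ⟨T, hT⟩ : ∃ T, T + s * d = (K + (J + s) - 1) + 2 * (J + s) :=
    ⟨(K + (J + s) - 1) + 2 * (J + s) - s * d, by omega⟩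
  obtain ⟨Δ, hΔ0, hΔT, hΔ⟩ := siegel (n := 2 * (J + s)) (L := J + s) (T := T) (E := T)
    (fun l i => cof F (l * d + 1) (d * K + s * d - 1) (2 * (J + s)) i *
      taylor ((i : ℕ) : F) (v l)) (fun l i => by
        refine natDegree_mul_le.trans ?_
        rw [natDegree_cof i.2, natDegree_taylor]
        have := hdeg l
        omega) (by
        have h1 : 0 < J + s := by omega
        nlinarith)
  refine ⟨Δ, hΔ0, fun i => by have := hΔT i; omega, ?_⟩
  have key : ∀ l : ℕ, l < J + s → ∑ i : Fin (2 * (J + s)),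
      (Δ i * taylor ((i : ℕ) : F) (Cp F s d (K + (J + s) - 1))) *
        taylor (((l * d + i : ℕ)) : F) u = 0 := by
    intro l hl
    have h1 := congrArg (· * run F (l * d + 1 + 2 * (J + s) - 1)
      ((d * K + s * d - 1) - (2 * (J + s) - 1))) (hΔ ⟨l, hl⟩)
    simp only [zero_mul, sum_mul] at h1
    rw [← h1]
    refine sum_congr rfl fun i _ => ?_
    have h2 := congrArg (taylor ((i : ℕ) : F)) (hv ⟨l, hl⟩)
    rw [taylor_mul, taylor_mul, taylor_run, taylor_taylor,
      run_eq_cof (n := 2 * (J + s)) i.2 (by omega)] at h2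
    have h3 : ((l * d + i : ℕ) : F) = ((i : ℕ) : F) + ((l * d : ℕ) : F) := by
      push_cast
      ring
    rw [h3, mul_assoc, h2]
    ring
  intro l hl
  have hcore : C c * run F (s * d + 1 + l * d + 2 * (J + s) - 1)
      ((d * K - 1) - (2 * (J + s) - 1)) ≠ 0 := mul_ne_zero (C_ne_zero.2 hc) (run_ne_zero _ _)
  refine (mul_eq_zero.1 ?_).resolve_right hcore
  have h5 : ∑ j ∈ range (s + 1), C (P.coeff j) * ∑ i : Fin (2 * (J + s)),
      (Δ i * taylor ((i : ℕ) : F) (Cp F s d (K + (J + s) - 1))) *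
        taylor ((((l + (s - j)) * d + i : ℕ)) : F) u = 0 := by
    refine sum_eq_zero fun j _ => ?_
    rw [key _ (by omega), mul_zero]
  rw [← h5]
  simp only [sum_mul, mul_sum]
  rw [sum_comm]
  refine sum_congr rfl fun i _ => ?_
  have h6 := congrArg (taylor ((l * d + i : ℕ) : F)) hrel
  rw [map_sum, taylor_mul, taylor_C, taylor_run,
    show s * d + 1 + (l * d + i) = (s * d + 1 + l * d) + i by ring,
    run_eq_cof (n := 2 * (J + s)) i.2 (by omega), ← taylor_cof] at h6
  have h7 : ∀ j ∈ range (s + 1), C (P.coeff j) *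
      ((Δ i * taylor ((i : ℕ) : F) (Cp F s d (K + (J + s) - 1))) *
        taylor ((((l + (s - j)) * d + i : ℕ)) : F) u) =
      (Δ i * taylor ((i : ℕ) : F) (Cp F s d (K + (J + s) - 1))) *
        taylor ((l * d + i : ℕ) : F) (C (P.coeff j) * taylor ((((s - j) * d : ℕ)) : F) u) := by
    intro j _
    rw [taylor_mul, taylor_C, taylor_taylor]
    have h8 : (((l + (s - j)) * d + i : ℕ) : F) =
        ((l * d + i : ℕ) : F) + (((s - j) * d : ℕ) : F) := by
      rw [← Nat.cast_add]
      congr 1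
      ring
    rw [h8]
    ring
  rw [sum_congr rfl h7, ← mul_sum, h6, Nat.cast_mul l d]
  ring

end Pool.Agent.P.MP_4600d4_nt.Ssg
end

-- part Pool.Agent.P.MP_4600d4_nt.SsgCas
section

set_option autoImplicit false

open Polynomial Finset

namespace Pool.Agent.P.MP_4600d4_nt.Ssg

variable {F : Type*} [Field F]

theorem cas_all (p : ℕ) [CharP F p] (h : F) (hh : h ≠ 0) {ι : Type*} [Fintype ι] (f : ι → F[X])
    (hf : LinearIndependent F f) (hdeg : ∀ a, (f a).natDegree < p) (c : ι → F[X])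
    (hc : ∀ b : ℕ, ∑ a, c a * taylor ((b : F) * h) (f a) = 0) : c = 0 := by
  funext a0
  have hp : 0 < p := (Nat.zero_le _).trans_lt (hdeg a0)
  have hg : (∑ a, C (c a) * (f a).map (C : F →+* F[X]) : F[X][X]) = 0 := by
    refine eq_zero_of_natDegree_lt_card_of_eval_eq_zero _
      (f := fun b : Fin p => (X + C (((b : ℕ) : F) * h) : F[X])) (fun b b' e => ?_) (fun b => ?_) ?_
    · have e1 := mul_right_cancel₀ hh (C_injective (add_left_cancel e))
      exact Fin.ext (CharP.natCast_injOn_Iio F p b.2 b'.2 e1)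
    · rw [eval_finsetSum, ← hc b]
      refine sum_congr rfl fun a _ => ?_
      rw [eval_mul, eval_C, eval_map, taylor_apply]
      rfl
    · rw [Fintype.card_fin]
      refine lt_of_le_of_lt (natDegree_sum_le_of_forall_le _ _ (n := p - 1) fun a _ => ?_) (by omega)
      refine (natDegree_C_mul_le _ _).trans (natDegree_map_le.trans ?_)
      have := hdeg a
      omega
  ext j
  have h1 : ∑ a, (c a).coeff j • f a = 0 := by
    ext k
    have h2 := congrArg (fun q : F[X][X] => (q.coeff k).coeff j) hg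
    simpa [finsetSum_coeff, coeff_C_mul, coeff_map, coeff_mul_C] using h2
  simpa using Fintype.linearIndependent_iff.1 hf _ h1 a0

theorem cas_step (h : F) (b : ℕ) (q : F[X]) :
    taylor (((b + 1 : ℕ) : F) * h) q = taylor h (taylor ((b : F) * h) q) := by
  rw [taylor_taylor]
  congr 2
  push_cast
  ring

theorem cas_step' (h : F) (b : ℕ) (q : F[X]) :
    taylor (((b + 1 : ℕ) : F) * h) q = taylor ((b : F) * h) (taylor h q) := by
  rw [taylor_taylor]
  congr 2
  push_cast
  ring

theorem cas_fin (p : ℕ) [CharP F p] (h : F) (hh : h ≠ 0) (N : ℕ) : ∀ (f : Fin N → F[X]),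
    LinearIndependent F f → (∀ a, (f a).natDegree < p) → ∀ c : Fin N → F[X],
    (∀ b : ℕ, b < N → ∑ a, c a * taylor ((b : F) * h) (f a) = 0) → c = 0 := by
  induction N with
  | zero => intro f _ _ c _; funext a; exact a.elim0
  | succ N ih =>
    intro f hf hdeg c hc
    have hf' : LinearIndependent F fun a : Fin N => f a.succ := hf.comp _ (Fin.succ_injective N)
    by_cases h0 : c 0 = 0
    · have := ih _ hf' (fun a => hdeg _) (fun a => c a.succ) fun b hb => by
        have := hc b (by omega)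
        rwa [Fin.sum_univ_succ, h0, zero_mul, zero_add] at this
      funext a
      exact Fin.cases h0 (fun a => congrFun this a) a
    have key : ∀ b : ℕ, c 0 * taylor h (∑ a, c a * taylor ((b : F) * h) (f a)) -
        taylor h (c 0) * ∑ a, c a * taylor (((b + 1 : ℕ) : F) * h) (f a) =
        ∑ a : Fin N, (taylor h (c a.succ) * c 0 - c a.succ * taylor h (c 0)) *
          taylor ((b : F) * h) (taylor h (f a.succ)) := by
      intro b
      rw [map_sum, mul_sum, mul_sum, ← sum_sub_distrib, Fin.sum_univ_succ]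
      simp only [taylor_mul, ← cas_step, ← cas_step']
      rw [show ∀ x y z : F[X], x * (y * z) - y * (x * z) = 0 from fun x y z => by ring, zero_add]
      exact sum_congr rfl fun a _ => by ring
    have hz := ih (fun a => taylor h (f a.succ))
      (hf'.map' (taylor h) (LinearMap.ker_eq_bot.2 (taylor_injective h)))
      (fun a => by rw [natDegree_taylor]; exact hdeg _)
      (fun a => taylor h (c a.succ) * c 0 - c a.succ * taylor h (c 0)) fun b hb => by
        rw [← key b, hc b (by omega), hc (b + 1) (by omega)]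
        simp
    have ht : taylor h (c 0) ≠ 0 := fun e => h0 (taylor_injective h (e.trans (map_zero _).symm))
    refine cas_all p h hh f hf hdeg c fun b => ?_
    induction b with
    | zero => exact hc 0 (by omega)
    | succ b ihb =>
      have h1 := key b
      have h2 : ∀ a : Fin N, taylor h (c a.succ) * c 0 - c a.succ * taylor h (c 0) = 0 :=
        fun a => congrFun hz a
      simp only [h2, zero_mul, sum_const_zero] at h1
      rw [ihb, map_zero, mul_zero, zero_sub, neg_eq_zero] at h1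
      exact (mul_eq_zero.1 h1).resolve_left ht

/-- Casoratian lemma, kernel form. -/
theorem cas_ker (p : ℕ) [CharP F p] (h : F) (hh : h ≠ 0) {ι : Type*} [Fintype ι] (f : ι → F[X])
    (hf : LinearIndependent F f) (hdeg : ∀ a, (f a).natDegree < p) (c : ι → F[X])
    (hc : ∀ b : ℕ, b < Fintype.card ι → ∑ a, c a * taylor ((b : F) * h) (f a) = 0) : c = 0 := by
  let e := (Fintype.equivFin ι).symm
  have := cas_fin p h hh _ (fun a => f (e a)) (hf.comp _ e.injective) (fun a => hdeg _)
    (fun a => c (e a)) fun b hb => by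
      rw [← hc b hb]
      exact e.sum_comp fun a => c a * taylor ((b : F) * h) (f a)
  funext a
  simpa using congrFun this (e.symm a)

/-- Casoratian lemma, determinant form. -/
theorem cas_det_ne_zero (p : ℕ) [CharP F p] (h : F) (hh : h ≠ 0) {N : ℕ} (f : Fin N → F[X])
    (hf : LinearIndependent F f) (hdeg : ∀ a, (f a).natDegree < p) :
    (Matrix.of fun b a : Fin N => taylor (((b : ℕ) : F) * h) (f a)).det ≠ 0 := by
  intro hd
  obtain ⟨c, hc0, hc⟩ := Matrix.exists_mulVec_eq_zero_iff.2 hd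
  refine hc0 (cas_ker p h hh f hf hdeg c fun b hb => ?_)
  rw [Fintype.card_fin] at hb
  have := congrFun hc ⟨b, hb⟩
  simpa [Matrix.mulVec, dotProduct, mul_comm] using this

/-- Casoratian lemma, row form. -/
theorem cas_row (p : ℕ) [CharP F p] (h : F) (hh : h ≠ 0) {ι : Type*} [Fintype ι] (f : ι → F[X])
    (hf : LinearIndependent F f) (hdeg : ∀ a, (f a).natDegree < p) {J : ℕ}
    (hJ : J ≤ Fintype.card ι) (g : Fin J → F[X])
    (hg : ∀ a, ∑ l : Fin J, g l * taylor (((l : ℕ) : F) * h) (f a) = 0) : g = 0 := by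
  obtain ⟨e⟩ : Nonempty (Fin J ↪ ι) :=
    Function.Embedding.nonempty_of_card_le (by rwa [Fintype.card_fin])
  have hd := cas_det_ne_zero p h hh (fun a => f (e a)) (hf.comp _ e.injective) fun a => hdeg _
  refine Matrix.eq_zero_of_vecMul_eq_zero hd (funext fun a => ?_)
  simpa [Matrix.vecMul, dotProduct] using hg (e a)

end Pool.Agent.P.MP_4600d4_nt.Ssg
end

-- part Pool.Agent.P.MP_4600d4_nt.SsgSpace
section

set_option autoImplicit false

open Polynomial Finset

namespace Pool.Agent.P.MP_4600d4_nt.Ssg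

variable {F : Type*} [Field F]

theorem space_dim {V W q : Type*} [AddCommGroup V] [Module F V] [FiniteDimensional F V]
    [AddCommGroup W] [Module F W] [Fintype q] (Θ : V →ₗ[F] W) (w : q → V)
    (hw : ∀ c : q → F, ∑ i, c i • w i = 0 → ∀ i, c i = 0) (h0 : ∀ i, Θ (w i) = 0) :
    ∃ (N : ℕ) (f : Fin N → W), LinearIndependent F f ∧ (∀ a, ∃ v, Θ v = f a) ∧
      N + Fintype.card q ≤ Module.finrank F V ∧
      ∀ v, Θ v ∈ Submodule.span F (Set.range f) := by
  have c1 := (LinearIndependent.of_comp (v := fun i => (⟨w i, h0 i⟩ : LinearMap.ker Θ))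
    (LinearMap.ker Θ).subtype (Fintype.linearIndependent_iff.2 hw)).fintype_card_le_finrank
  have c2 := LinearMap.finrank_range_add_finrank_ker Θ
  let b := Module.finBasis F (LinearMap.range Θ)
  refine ⟨_, fun a => (b a : W), b.linearIndependent.map' _ (Submodule.ker_subtype _),
    fun a => (b a).2, by omega, fun v => ?_⟩
  have := congrArg (Submodule.map (LinearMap.range Θ).subtype) b.span_eq
  rw [Submodule.map_span, ← Set.range_comp, Submodule.map_top, Submodule.range_subtype] at this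
  exact this.ge ⟨v, rfl⟩

theorem space_theta {ι : Type*} [Fintype ι] (S : ℕ) (y : ι → F[X]) :
    ∃ Θ : (ι → degreeLT F S) →ₗ[F] F[X], ∀ f, Θ f = ∑ i, (f i : F[X]) * y i :=
  ⟨∑ i, (LinearMap.mulRight F (y i)) ∘ₗ (degreeLT F S).subtype ∘ₗ LinearMap.proj i,
    fun f => by simp⟩

/-- Step 5a: the space spanned by the `Y^j y_i`, `j < S`, has dimension at most
`card ι * S - J (S + 1 - n)`. -/
theorem exists_space (p : ℕ) [CharP F p] (h : F) (hh : h ≠ 0) {ι : Type*} [Fintype ι] [Nonempty ι]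
    {n J S M : ℕ} (κ y : ι → F[X]) (hκ : LinearIndependent F κ)
    (hκd : ∀ i, (κ i).natDegree < n) (hnp : n ≤ p) (hS : n ≤ S) (hy : ∀ i, y i ≠ 0)
    (hM : ∀ i, (y i).natDegree ≤ M)
    (hR : ∀ l : ℕ, l < J → ∑ i, y i * taylor ((l : F) * h) (κ i) = 0) :
    ∃ (N : ℕ) (f : Fin N → F[X]), LinearIndependent F f ∧ (∀ a, (f a).natDegree < S + M) ∧
      N + J * (S + 1 - n) ≤ Fintype.card ι * S ∧
      ∀ i, ∀ j : ℕ, j < S → X ^ j * y i ∈ Submodule.span F (Set.range f) := by
  classical
  have hκp : ∀ i, (κ i).natDegree < p := fun i => (hκd i).trans_le hnp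
  have hJ : J ≤ Fintype.card ι := by
    by_contra hc
    obtain ⟨i⟩ := ‹Nonempty ι›
    exact hy i (congrFun (cas_ker p h hh κ hκ hκp y fun b hb => hR b (by omega)) i)
  have mem : ∀ g : F[X], g.natDegree < S → g ∈ degreeLT F S := fun g hg =>
    mem_degreeLT.2 (degree_le_natDegree.trans_lt (by exact_mod_cast hg))
  obtain ⟨Θ, hΘ⟩ := space_theta S y
  have : Module.Finite F (degreeLT F S) := Module.Finite.equiv (degreeLTEquiv F S).symm
  have fr : Module.finrank F (ι → degreeLT F S) = Fintype.card ι * S := by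
    rw [Module.finrank_pi_fintype, (degreeLTEquiv F S).finrank_eq]
    simp
  have dg : ∀ (q : Fin J × Fin (S + 1 - n)) (i : ι),
      (X ^ (q.2 : ℕ) * taylor (((q.1 : ℕ) : F) * h) (κ i)).natDegree < S := fun q i => by
    have a := natDegree_mul_le (p := (X : F[X]) ^ (q.2 : ℕ))
      (q := taylor (((q.1 : ℕ) : F) * h) (κ i))
    rw [natDegree_X_pow, natDegree_taylor] at a
    have := hκd i
    have := q.2.2
    omega
  obtain ⟨N, f, f1, f2, f3, f4⟩ := space_dim Θ
    (fun (q : Fin J × Fin (S + 1 - n)) i => ⟨_, mem _ (dg q i)⟩) (fun c hc => by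
      have a := cas_row p h hh κ hκ hκp hJ
        (fun l => ∑ k : Fin (S + 1 - n), monomial (k : ℕ) (c (l, k))) fun i => by
          have := congrArg (fun z : ι → degreeLT F S => (z i : F[X])) hc
          simp only [AddSubmonoidClass.coe_finsetSum, Finset.sum_apply, SetLike.val_smul,
            Pi.smul_apply, ZeroMemClass.coe_zero, Pi.zero_apply, Fintype.sum_prod_type] at this
          rw [← this]
          refine sum_congr rfl fun l _ => ?_
          rw [sum_mul]
          exact sum_congr rfl fun k _ => by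
            rw [smul_eq_C_mul, ← mul_assoc, C_mul_X_pow_eq_monomial]
      rintro ⟨l, k⟩
      have := congrArg (fun z => coeff z k) (congrFun a l)
      simpa [finsetSum_coeff, coeff_monomial, Fin.val_inj] using this) fun q => by
      rw [hΘ]
      have := congrArg (fun z => X ^ (q.2 : ℕ) * z) (hR q.1 q.1.2)
      simp only [mul_sum, mul_zero] at this
      rw [← this]
      exact sum_congr rfl fun i _ => by ring
  rw [Fintype.card_prod, Fintype.card_fin, Fintype.card_fin, fr] at f3
  refine ⟨N, f, f1, fun a => ?_, f3, fun i j hj => ?_⟩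
  · obtain ⟨g, hg⟩ := f2 a
    obtain ⟨i⟩ := ‹Nonempty ι›
    have := hκd i
    rw [← hg, hΘ]
    refine lt_of_le_of_lt (natDegree_sum_le_of_forall_le _ _ (n := S - 1 + M) fun i _ =>
      natDegree_mul_le.trans (add_le_add ?_ (hM i))) (by omega)
    by_cases e : (g i : F[X]) = 0
    · simp [e]
    · have := (natDegree_lt_iff_degree_lt e).2 (mem_degreeLT.1 (g i).2)
      omega
  · have := f4 (Pi.single i ⟨X ^ j, mem _ (by rwa [natDegree_X_pow])⟩)
    rwa [hΘ, sum_eq_single i (fun k _ hk => by simp [Pi.single_eq_of_ne hk]) (by simp),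
      Pi.single_eq_same] at this

end Pool.Agent.P.MP_4600d4_nt.Ssg
end

-- part Pool.Agent.P.MP_4600d4_nt.SsgCount
section

set_option autoImplicit false

open Polynomial Finset

namespace Pool.Agent.P.MP_4600d4_nt.Ssg

variable {F : Type*} [Field F]

theorem count_aux1 {S : ℕ} (y : F[X]) (hy : y ≠ 0) :
    LinearIndependent F fun j : Fin S => X ^ (j : ℕ) * y := by
  rw [Fintype.linearIndependent_iff]
  intro g hg
  have h1 : (∑ j : Fin S, g j • (X : F[X]) ^ (j : ℕ)) * y = 0 := by
    rw [Finset.sum_mul]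
    simpa only [smul_mul_assoc] using hg
  have h2 := (mul_eq_zero.1 h1).resolve_right hy
  intro j
  have h3 := congrArg (fun q : F[X] => q.coeff j) h2
  simp only [finsetSum_coeff, coeff_smul, coeff_X_pow, smul_eq_mul, coeff_zero] at h3
  rw [Finset.sum_eq_single j] at h3
  · simpa using h3
  · intro b _ hb
    have : (j : ℕ) ≠ b := fun h => hb (Fin.ext h.symm)
    simp [this]
  · intro h
    exact absurd (mem_univ j) h

theorem count_aux2 {N S : ℕ} (f : Fin N → F[X]) (w : Fin S → F[X]) (hw : LinearIndependent F w)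
    (v : Fin S → Fin N → F) (hv : ∀ j, ∑ a, v j a • f a = w j) : LinearIndependent F v := by
  rw [Fintype.linearIndependent_iff] at hw ⊢
  intro g hg
  apply hw g
  have h1 : ∀ a, ∑ j, g j * v j a = 0 := fun a => by
    have := congrFun hg a
    simpa [Finset.sum_apply] using this
  calc ∑ j, g j • w j = ∑ j, ∑ a, (g j * v j a) • f a := by
        refine Finset.sum_congr rfl fun j _ => ?_
        rw [← hv j, Finset.smul_sum]
        simp only [smul_smul]
    _ = ∑ a, (∑ j, g j * v j a) • f a := by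
        rw [Finset.sum_comm]
        simp only [Finset.sum_smul]
    _ = 0 := by simp [h1]

/-- Step 5b: counting the zeros of the Casoratian with step `d`. -/
theorem count_zeros (p : ℕ) [CharP F p] {ι : Type*} [Fintype ι] {s d Kh S N E : ℕ}
    (r : ι → ℕ) (hr : Function.Injective r) (hrd : ∀ i, r i < d) (hd : (d : F) ≠ 0)
    (hp : (s + Kh) * d ≤ p) (y : ι → F[X]) (hy : ∀ i, y i ≠ 0)
    (hz : ∀ i, ∀ k : ℕ, k < Kh → (y i).eval (-(((s + k) * d + r i : ℕ) : F)) = 0)
    (f : Fin N → F[X]) (hf : LinearIndependent F f) (hE : ∀ a, (f a).natDegree < E) (hEp : E ≤ p)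
    (hmem : ∀ i, ∀ j : ℕ, j < S → X ^ j * y i ∈ Submodule.span F (Set.range f)) :
    Fintype.card ι * S * (Kh - N) ≤ N * E := by
  classical
  set M : Matrix (Fin N) (Fin N) F[X] :=
    Matrix.of fun b a : Fin N => taylor (((b : ℕ) : F) * (d : F)) (f a) with hM
  have hW : M.det ≠ 0 := cas_det_ne_zero p (d : F) hd f hf fun a => lt_of_lt_of_le (hE a) hEp
  have hdeg : M.det.natDegree ≤ N * E := by
    refine natDegree_det_le_mul M E fun b a => ?_
    simp only [hM, Matrix.of_apply, natDegree_taylor]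
    exact (hE a).le
  have hdvd : ∀ q ∈ (univ : Finset ι) ×ˢ Ico N Kh,
      (X - C (-(((s + q.2) * d + r q.1 : ℕ) : F))) ^ S ∣ M.det := by
    rintro ⟨i, k⟩ hq
    have hk := mem_Ico.1 (mem_product.1 hq).2
    simp only at hk
    have hex : ∀ j : Fin S, ∃ c : Fin N → F, ∑ a, c a • f a = X ^ (j : ℕ) * y i := fun j =>
      (Submodule.mem_span_range_iff_exists_fun F).1 (hmem i j j.2)
    choose v hv using hex
    refine pow_dvd_det M _ v (count_aux2 f _ (count_aux1 (y i) (hy i)) v hv) fun j b => ?_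
    have hb := b.2
    have e1 : -(((s + k) * d + r i : ℕ) : F) + ((b : ℕ) : F) * (d : F)
        = -(((s + (k - b)) * d + r i : ℕ) : F) := by
      have : s + k = s + (k - b) + b := by omega
      rw [this]
      push_cast
      ring
    have e2 := congrArg (eval (-(((s + (k - b)) * d + r i : ℕ) : F))) (hv j)
    rw [eval_mul, hz i (k - b) (by omega), mul_zero, eval_finsetSum] at e2
    rw [← e2]
    refine Finset.sum_congr rfl fun a _ => ?_
    simp only [hM, Matrix.of_apply]
    rw [taylor_eval, e1, eval_smul, smul_eq_mul, mul_comm]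
  have hlt : ∀ (i : ι) (k : ℕ), k < Kh → (s + k) * d + r i < p := by
    intro i k hk
    have h1 : (s + k + 1) * d ≤ (s + Kh) * d := Nat.mul_le_mul_right d (by omega)
    have h2 := hrd i
    have h3 : (s + k + 1) * d = (s + k) * d + d := by ring
    omega
  have hinj : Set.InjOn (fun q : ι × ℕ => -(((s + q.2) * d + r q.1 : ℕ) : F))
      ((univ : Finset ι) ×ˢ Ico N Kh : Finset (ι × ℕ)) := by
    rintro ⟨i, k⟩ hq ⟨i', k'⟩ hq' h
    have hk := (mem_Ico.1 (mem_product.1 (mem_coe.1 hq)).2).2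
    have hk' := (mem_Ico.1 (mem_product.1 (mem_coe.1 hq')).2).2
    simp only at hk hk'
    have h0 : (((s + k) * d + r i : ℕ) : F) = (((s + k') * d + r i' : ℕ) : F) := neg_injective h
    have h1 : (s + k) * d + r i = (s + k') * d + r i' :=
      CharP.natCast_injOn_Iio F p (hlt i k hk) (hlt i' k' hk') h0
    have hd0 : 0 < d := lt_of_le_of_lt (Nat.zero_le _) (hrd i)
    have h2 : r i = r i' := by
      have := congrArg (· % d) h1
      simp only [Nat.mul_add_mod', Nat.mod_eq_of_lt (hrd i), Nat.mod_eq_of_lt (hrd i')] at this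
      exact this
    have h3 : (s + k) * d = (s + k') * d := by omega
    have h4 : s + k = s + k' := Nat.eq_of_mul_eq_mul_right hd0 h3
    exact Prod.ext (hr h2) (by simpa using h4)
  have hall := prod_pow_dvd _ _ hinj S M.det hdvd
  have hle := natDegree_le_of_dvd hall hW
  rw [natDegree_prod_of_monic _ _ fun _ _ => (monic_X_sub_C _).pow S] at hle
  simp only [natDegree_pow, natDegree_X_sub_C, mul_one, sum_const, card_product, card_univ,
    Nat.card_Ico, smul_eq_mul] at hle
  calc Fintype.card ι * S * (Kh - N) = Fintype.card ι * (Kh - N) * S := by ring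
    _ ≤ N * E := hle.trans hdeg

end Pool.Agent.P.MP_4600d4_nt.Ssg
end

-- part Pool.Agent.P.MP_4600d4_nt.SsgArith
section

set_option autoImplicit false

open Finset

namespace Pool.Agent.P.MP_4600d4_nt.Ssg

theorem arith_aux {J n S A Kh N c T sd m : ℕ} (hJ : 1 ≤ J) (hn : 1 ≤ n) (hS : S = m * n)
    (hc : c ≤ n) (hT : T + sd ≤ Kh + n) (hN : N + J * A ≤ c * S)
    (h : c * S * (Kh - N) ≤ N * (S + (T + Kh))) (hA : A ≤ S) (h2J : 2 * J ≤ n)
    (hgap : n * S ≤ 2 * (J * A) + 4 * (J * n)) (hR : 2 * (n + S + n * S) ≤ sd) :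
    m * sd ≤ 8 * Kh := by
  have h1 : c * S * Kh ≤ c * S * (Kh - N) + c * S * N := by
    rw [← mul_add]; exact Nat.mul_le_mul_left _ (by omega)
  have h2 : (N + J * A) * Kh ≤ c * S * Kh := Nat.mul_le_mul_right _ hN
  have h3 : c * S ≤ n * S := Nat.mul_le_mul_right _ hc
  have h4 : c * S * N ≤ n * S * N := Nat.mul_le_mul_right _ h3
  have h5 : J * A * Kh ≤ N * (S + T + n * S) := by nlinarith
  obtain ⟨N0, hN0⟩ : ∃ N0, n * S = J * A + N0 := ⟨n * S - J * A, by omega⟩
  have h6 : N ≤ N0 := by omega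
  have h7 : J * A * Kh ≤ N0 * (S + T + n * S) := h5.trans (Nat.mul_le_mul_right _ h6)
  have h8 : N0 * (T + sd) ≤ N0 * (Kh + n) := Nat.mul_le_mul_left _ hT
  have h9 : N0 * (2 * (n + S + n * S)) ≤ N0 * sd := Nat.mul_le_mul_left _ hR
  have h10 : N0 ≤ J * A + 4 * (J * n) := by omega
  have h11 : N0 * Kh ≤ (J * A + 4 * (J * n)) * Kh := Nat.mul_le_mul_right _ h10
  have h12 : N0 * sd ≤ 8 * (J * n) * Kh := by
    generalize n * S = Q at h7 h9
    nlinarith
  have h13 : J * A ≤ J * S := Nat.mul_le_mul_left _ hA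
  have h14 : 2 * J * S ≤ n * S := Nat.mul_le_mul_right _ h2J
  have h15 : J * S ≤ N0 := by nlinarith
  have h16 : J * S * sd ≤ N0 * sd := Nat.mul_le_mul_right _ h15
  have h17 : J * n * (m * sd) ≤ J * n * (8 * Kh) := by
    calc J * n * (m * sd) = J * S * sd := by rw [hS]; ring
      _ ≤ 8 * (J * n) * Kh := h16.trans h12
      _ = J * n * (8 * Kh) := by ring
  exact Nat.le_of_mul_le_mul_left h17 (Nat.mul_pos hJ hn)

/-- The numerical end of step 5 (`J = s m`, `n = 2 (J + s)`, `S = m n`, `Kh = K + J + s - 1`). -/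
theorem arith_core {s m d K N c T : ℕ} (hs : 1 ≤ s) (hm : 1 ≤ m) (hd : 8 * s * (m + 1) ^ 3 ≤ d)
    (hK : 1 ≤ K) (hc : c ≤ 2 * (s * m + s))
    (hT : T + s * d ≤ (K + (s * m + s) - 1) + 2 * (s * m + s))
    (hN : N + s * m * (m * (2 * (s * m + s)) + 1 - 2 * (s * m + s)) ≤ c * (m * (2 * (s * m + s))))
    (h : c * (m * (2 * (s * m + s))) * ((K + (s * m + s) - 1) - N)
      ≤ N * (m * (2 * (s * m + s)) + (T + (K + (s * m + s) - 1)))) :
    s * m * d ≤ 16 * K := by
  obtain ⟨m', rfl⟩ : ∃ m', m = m' + 1 := ⟨m - 1, by omega⟩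
  have hJ : 1 ≤ s * (m' + 1) := Nat.mul_pos hs hm
  have hsub : (m' + 1) * (2 * (s * (m' + 1) + s)) + 1 - 2 * (s * (m' + 1) + s)
      = m' * (2 * (s * (m' + 1) + s)) + 1 := by
    rw [add_mul m' 1, one_mul]; omega
  rw [hsub] at hN
  have hn2 : m' + 2 ≤ 2 * (s * (m' + 1) + s) := by nlinarith
  have hR : 2 * (2 * (s * (m' + 1) + s) + (m' + 1) * (2 * (s * (m' + 1) + s)) +
      2 * (s * (m' + 1) + s) * ((m' + 1) * (2 * (s * (m' + 1) + s)))) ≤ s * d := by
    have e1 : s * (8 * s * (m' + 1 + 1) ^ 3) ≤ s * d := Nat.mul_le_mul_left _ hd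
    have e2 : s * (8 * s * (m' + 1 + 1) ^ 3)
        = 2 * ((m' + 2) * (2 * (s * (m' + 1) + s)) ^ 2) := by ring
    rw [e2] at e1
    refine le_trans ?_ e1
    generalize 2 * (s * (m' + 1) + s) = n at hn2
    have e3 : (m' + 2) * n ≤ n * n := Nat.mul_le_mul_right _ hn2
    nlinarith
  have hgap : 2 * (s * (m' + 1) + s) * ((m' + 1) * (2 * (s * (m' + 1) + s))) ≤
      2 * (s * (m' + 1) * (m' * (2 * (s * (m' + 1) + s)) + 1)) +
        4 * (s * (m' + 1) * (2 * (s * (m' + 1) + s))) := by
    apply le_of_le_of_eq (Nat.le_add_right _ (2 * (s * (m' + 1))))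
    ring
  have key := arith_aux (m := m' + 1) hJ (by omega) rfl hc hT hN h
    (by rw [add_mul m' 1, one_mul]; omega) (by omega) hgap hR
  have h64 : 64 ≤ d := by
    have e1 : 2 ^ 3 ≤ (m' + 1 + 1) ^ 3 := Nat.pow_le_pow_left (by omega) 3
    have e2 : 8 * 1 * 2 ^ 3 ≤ 8 * s * (m' + 1 + 1) ^ 3 :=
      Nat.mul_le_mul (Nat.mul_le_mul_left _ hs) e1
    omega
  have e4 : s * (m' + 1) * 64 ≤ s * (m' + 1) * d := Nat.mul_le_mul_left _ h64
  have e5 : s ≤ s * (m' + 1) := Nat.le_mul_of_pos_right _ hm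
  have e6 : (m' + 1) * (s * d) = s * (m' + 1) * d := by ring
  rw [e6] at key
  omega

/-- Choice of `s` and `m`. -/
theorem arith_final {g b d s0 p : ℕ} (hg : g ≤ 2 * d) (hs0 : 1 ≤ s0) (hb : b ≤ 2 * (s0 * d))
    (hd : 64 ≤ d)
    (h : ∀ s m : ℕ, 1 ≤ s → s ≤ s0 → 1 ≤ m → 8 * s * (m + 1) ^ 3 ≤ d → s * m * d ^ 2 ≤ 8 * p) :
    (min (g ^ 2) (max g b)) ^ 2 * g ^ 5 ≤ 2 ^ 63 * p ^ 3 := by
  classical
  obtain ⟨s, hs1, hs2, hs3, hs4⟩ : ∃ s, 1 ≤ s ∧ s ≤ s0 ∧ 64 * s ≤ d ∧
      min (g ^ 2) (max g b) ≤ 512 * (s * d) := by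
    rcases le_total s0 (d / 64) with h1 | h1
    · refine ⟨s0, hs0, le_rfl, by omega, (min_le_right _ _).trans (max_le ?_ (by omega))⟩
      have : d ≤ s0 * d := Nat.le_mul_of_pos_left _ hs0
      omega
    · refine ⟨d / 64, by omega, h1, by omega, (min_le_left _ _).trans ?_⟩
      have e1 : g ^ 2 ≤ (2 * d) ^ 2 := Nat.pow_le_pow_left hg 2
      have e2 : d ≤ 128 * (d / 64) := by omega
      have e3 : d * d ≤ 128 * (d / 64) * d := Nat.mul_le_mul_right _ e2
      nlinarith
  have hex : ∃ m, d < 8 * s * (m + 2) ^ 3 := by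
    refine ⟨d, ?_⟩
    have e1 : d + 2 ≤ (d + 2) ^ 3 := Nat.le_self_pow (by norm_num) _
    have e2 : 1 * (d + 2) ^ 3 ≤ 8 * s * (d + 2) ^ 3 := Nat.mul_le_mul_right _ (by omega)
    omega
  have hm1 := Nat.find_spec hex
  have hm0 : Nat.find hex ≠ 0 := by
    intro h0
    rw [h0] at hm1
    norm_num at hm1
    omega
  obtain ⟨m', hm'⟩ := Nat.exists_eq_succ_of_ne_zero hm0
  have hm2 := Nat.find_min hex (m := m') (by omega)
  rw [hm'] at hm1
  have h1 := h s (m' + 1) hs1 hs2 (by omega) (not_lt.1 hm2)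
  have h2 : d ≤ 216 * s * (m' + 1) ^ 3 := by
    have e1 : (m'.succ + 2) ^ 3 ≤ (3 * (m' + 1)) ^ 3 := Nat.pow_le_pow_left (by omega) 3
    have e2 : 8 * s * (m'.succ + 2) ^ 3 ≤ 8 * s * (3 * (m' + 1)) ^ 3 := Nat.mul_le_mul_left _ e1
    have e3 : 8 * s * (3 * (m' + 1)) ^ 3 = 216 * s * (m' + 1) ^ 3 := by ring
    omega
  have h3 : (s * (m' + 1) * d ^ 2) ^ 3 ≤ (8 * p) ^ 3 := Nat.pow_le_pow_left h1 3
  have h4 : s ^ 2 * d ^ 7 ≤ 216 * (8 * p) ^ 3 := by
    calc s ^ 2 * d ^ 7 = s ^ 2 * d ^ 6 * d := by ring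
      _ ≤ s ^ 2 * d ^ 6 * (216 * s * (m' + 1) ^ 3) := Nat.mul_le_mul_left _ h2
      _ = 216 * (s * (m' + 1) * d ^ 2) ^ 3 := by ring
      _ ≤ 216 * (8 * p) ^ 3 := Nat.mul_le_mul_left _ h3
  calc (min (g ^ 2) (max g b)) ^ 2 * g ^ 5 ≤ (512 * (s * d)) ^ 2 * (2 * d) ^ 5 :=
        Nat.mul_le_mul (Nat.pow_le_pow_left hs4 2) (Nat.pow_le_pow_left hg 5)
    _ = 2 ^ 23 * (s ^ 2 * d ^ 7) := by ring
    _ ≤ 2 ^ 23 * (216 * (8 * p) ^ 3) := Nat.mul_le_mul_left _ h4
    _ = (2 ^ 23 * 216 * 512) * p ^ 3 := by ring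
    _ ≤ 2 ^ 63 * p ^ 3 := Nat.mul_le_mul_right _ (by norm_num)

end Pool.Agent.P.MP_4600d4_nt.Ssg
end
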