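import Pool.Agent.K.MP_4600d4_nt.C7
import Pool.Agent.K.MP_4600d4_nt.C8

set_option autoImplicit false

open Polynomial Finset

namespace Pool.Agent.P.MP_4600d4_nt.Ssh

open Pool.Agent.P.MP_4600d4_nt.Ssg

variable {F : Type*} [Field F]

/-- The algebraic theorem. -/
theorem alg (p : ℕ) [Fact p.Prime] [CharP F p] {m D d e : ℕ} (T1 T2 : Finset F)
    (h1 : T1.Nonempty) (h2 : T2.Nonempty) (h10 : (0 : F) ∉ T1) (h20 : (0 : F) ∉ T2)
    (hm : 4 * m * e + 4 * d ≤ m * d) (hd : 48 * m ^ 2 ≤ d) (hd0 : 0 < d) (hdD : d ≤ D)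
    (hp : 2 * D < p) (hu : ∀ l ∈ T1, ∀ μ ∈ T2, ∃ u : F[X], UGood D d e (l * μ) u) :
    T1.card * T2.card * d ^ 3 ≤ 288 * m ^ 3 * D := by
  classical
  have hK1 : D / d * d ≤ D := Nat.div_mul_le_self D d
  have hK2 : D ≤ (D / d + 1) * d := by
    have := Nat.lt_div_mul_add (a := D) hd0
    rw [add_mul, one_mul]
    exact this.le
  have key := arith (K := D / d) (r := T1.card) (s0 := T2.card) hm hd hd0
    ((Nat.one_le_div_iff hd0).2 hdD) h1.card_pos h2.card_pos
    (fun s n h J N1 hs hen hnd hh hJ hσ hN =>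
      core_ineq p (fun a => (T1.equivFin.symm a : F))
        (fun a a' ha => T1.equivFin.symm.injective (Subtype.ext ha))
        (fun a ha => h10 (ha ▸ (T1.equivFin.symm a).2))
        (fun b => (T2.equivFin.symm (Fin.castLE hs b) : F))
        (fun b b' hb => Fin.castLE_injective hs (T2.equivFin.symm.injective (Subtype.ext hb)))
        (fun b hb => h20 (hb ▸ (T2.equivFin.symm (Fin.castLE hs b)).2))
        (fun a b => hu _ (T1.equivFin.symm a).2 _ (T2.equivFin.symm (Fin.castLE hs b)).2)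
        hp hK1 hK2 hen hnd hh hJ hσ hN)
  calc T1.card * T2.card * d ^ 3 = T1.card * T2.card * d ^ 2 * d := by ring
    _ ≤ 288 * m ^ 3 * (D / d) * d := Nat.mul_le_mul_right d key
    _ = 288 * m ^ 3 * (D / d * d) := by ring
    _ ≤ 288 * m ^ 3 * D := Nat.mul_le_mul_left _ hK1

end Pool.Agent.P.MP_4600d4_nt.Ssh
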