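import Pool.Agent.K.MP_4600d4_nt.C4
import Pool.Agent.K.MP_4600d4_nt.C9

-- part Pool.Agent.P.MP_4600d4_nt.SshNat
section

set_option autoImplicit false

open Polynomial Finset

namespace Pool.Agent.P.MP_4600d4_nt.Ssh

open Pool.Agent.P.MP_4600d4_nt.Ssg

variable {F : Type*} [Field F]

theorem sshnat_fib [DecidableEq F] (R : Finset F) (x : F → F) (hx : Function.Injective x) {d : ℕ}
    (hd : 0 < d) (hR : R.Nonempty) :
    max R.card d ≤ d * (R.image fun b => x b ^ d).card := by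
  refine max_le ?_ (Nat.le_mul_of_pos_right _ (card_pos.2 (hR.image _)))
  refine card_le_mul_card_image R d fun t _ => ?_
  calc _ ≤ (nthRoots d t).toFinset.card := by
        refine card_le_card_of_injOn x (fun b hb => ?_) fun b _ b' _ h => hx h
        have := (mem_filter.1 (mem_coe.1 hb)).2
        exact mem_coe.2 (Multiset.mem_toFinset.2 ((mem_nthRoots hd).2 this))
    _ ≤ d := (Multiset.toFinset_card_le _).trans (card_nthRoots _ _)

/-- The theorem with natural numbers. -/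
theorem main_nat (m : ℕ) (p : ℕ) [Fact p.Prime] (G : Subgroup (ZMod p)ˣ) (R S : Finset (ZMod p))
    {e : ℕ} (hm : 4 * m * e + 4 * Nat.card G ≤ m * Nat.card G) (hd : 48 * m ^ 2 ≤ Nat.card G)
    (hR : R.Nonempty) (hS : S.Nonempty) (hR0 : (0 : ZMod p) ∉ R) (hS0 : (0 : ZMod p) ∉ S)
    (h : ∀ a ∈ R, ∀ b ∈ S,
      Nat.card G ≤ Nat.card {g : G // IsSquare (a * ((g : (ZMod p)ˣ) : ZMod p) + b)} + e ∨
      Nat.card G ≤ Nat.card {g : G // ¬ IsSquare (a * ((g : (ZMod p)ˣ) : ZMod p) + b)} + e) :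
    max R.card (Nat.card G) * max S.card (Nat.card G) * Nat.card G ≤ 288 * m ^ 3 * p := by
  classical
  have hpp : p.Prime := Fact.out
  have hd0 : 0 < Nat.card G := Nat.card_pos
  have hm4 : 4 ≤ m := Nat.le_of_mul_le_mul_right ((Nat.le_add_left _ _).trans hm) hd0
  have he : 4 * e < Nat.card G := by
    refine Nat.lt_of_mul_lt_mul_left (a := m) ?_
    have e1 : m * (4 * e) = 4 * m * e := by ring
    omega
  have hd768 : 768 ≤ Nat.card G := by
    have := Nat.pow_le_pow_left hm4 2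
    omega
  have hdvd : Nat.card G ∣ p - 1 := by
    have h1 := Subgroup.card_subgroup_dvd_card G
    rwa [Nat.card_eq_fintype_card (α := (ZMod p)ˣ), ZMod.card_units] at h1
  have hp2 := hpp.two_le
  have hgp : Nat.card G ≤ p - 1 := Nat.le_of_dvd (by omega) hdvd
  obtain ⟨D, hD⟩ : ∃ D, p = 2 * D + 1 := hpp.odd_of_ne_two (by omega)
  have hD1 : 1 ≤ D := by omega
  have hpair := fun a (ha : a ∈ R) b (hb : b ∈ S) =>
    pair p hD hD1 G a b (fun h0 => hR0 (h0 ▸ ha)) (fun h0 => hS0 (h0 ▸ hb)) (by omega) (h a ha b hb)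
  have hdD : Nat.card G ≤ D := by
    obtain ⟨a, ha⟩ := hR
    obtain ⟨b, hb⟩ := hS
    have h1 := (hpair a ha b hb).1
    obtain ⟨k, hk⟩ := hdvd
    rcases Nat.lt_or_ge k 2 with h2 | h2
    · have h3 : Nat.card G * k ≤ Nat.card G * 1 := Nat.mul_le_mul_left _ (by omega)
      omega
    · have h3 : Nat.card G * 2 ≤ Nat.card G * k := Nat.mul_le_mul_left _ h2
      omega
  have f1 := sshnat_fib R (fun a => -a) neg_injective hd0 hR
  have f2 := sshnat_fib S (fun b => b⁻¹) inv_injective hd0 hS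
  have ha := alg p (m := m) (D := D) (e := e) (R.image fun a => (-a) ^ Nat.card G)
    (S.image fun b => b⁻¹ ^ Nat.card G) (hR.image _) (hS.image _) ?_ ?_ hm hd hd0 hdD (by omega) ?_
  · calc _ ≤ Nat.card G * (R.image fun a => (-a) ^ Nat.card G).card *
          (Nat.card G * (S.image fun b => b⁻¹ ^ Nat.card G).card) * Nat.card G :=
          Nat.mul_le_mul_right _ (Nat.mul_le_mul f1 f2)
      _ = (R.image fun a => (-a) ^ Nat.card G).card * (S.image fun b => b⁻¹ ^ Nat.card G).card *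
          Nat.card G ^ 3 := by ring
      _ ≤ 288 * m ^ 3 * D := ha
      _ ≤ _ := Nat.mul_le_mul_left _ (by omega)
  · intro h0
    obtain ⟨a, ha, h1⟩ := mem_image.1 h0
    exact hR0 (neg_eq_zero.1 (pow_eq_zero_iff hd0.ne' |>.1 h1) ▸ ha)
  · intro h0
    obtain ⟨b, hb, h1⟩ := mem_image.1 h0
    exact hS0 (inv_eq_zero.1 (pow_eq_zero_iff hd0.ne' |>.1 h1) ▸ hb)
  · intro l hl μ hμ
    obtain ⟨a, ha, rfl⟩ := mem_image.1 hl
    obtain ⟨b, hb, rfl⟩ := mem_image.1 hμ
    exact (hpair a ha b hb).2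

end Pool.Agent.P.MP_4600d4_nt.Ssh
end

-- part Pool.Agent.P.MP_4600d4_nt.SshMain
section

set_option autoImplicit false

open Polynomial Finset

namespace Pool.Agent.P.MP_4600d4_nt.Ssh

open Pool.Agent.P.MP_4600d4_nt.Ssg

variable {F : Type*} [Field F]

lemma sshmain_key (ε : ℝ) (m d g : ℕ) (hm : 4 ≤ m) (hεm : 1 ≤ ε * m)
    (h : (3 / 4 + ε) * (d : ℝ) ≤ (g : ℝ)) : d ≤ g + (m - 4) * d / (4 * m) := by
  have h1 : (3 * m + 4) * d ≤ 4 * m * g := by
    have hm0 : (0 : ℝ) ≤ 4 * (m : ℝ) := by positivity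
    have hd0 : (0 : ℝ) ≤ (d : ℝ) := by positivity
    have h2 := mul_le_mul_of_nonneg_left h hm0
    have h3 := mul_le_mul_of_nonneg_right hεm hd0
    have h4 : ((3 * m + 4 : ℝ)) * d ≤ 4 * m * g := by nlinarith
    exact_mod_cast h4
  obtain ⟨k, rfl⟩ := Nat.exists_eq_add_of_le hm
  rcases le_total d g with hdg | hdg
  · exact le_trans hdg (Nat.le_add_right _ _)
  · obtain ⟨t, rfl⟩ := Nat.exists_eq_add_of_le hdg
    apply Nat.add_le_add_left
    rw [Nat.le_div_iff_mul_le (by omega), Nat.add_sub_cancel_left]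
    nlinarith

theorem main (ε : ℝ) (hε : 0 < ε) : ∃ C : ℕ, ∀ (p : ℕ) [Fact p.Prime] (G : Subgroup (ZMod p)ˣ)
    (R S : Finset (ZMod p)), C ≤ Nat.card G → R.Nonempty → S.Nonempty →
    (0 : ZMod p) ∉ R → (0 : ZMod p) ∉ S →
    (∀ a ∈ R, ∀ b ∈ S,
      (3 / 4 + ε) * (Nat.card G : ℝ) ≤
        (Nat.card {g : G // IsSquare (a * ((g : (ZMod p)ˣ) : ZMod p) + b)} : ℝ) ∨
      (3 / 4 + ε) * (Nat.card G : ℝ) ≤
        (Nat.card {g : G // ¬ IsSquare (a * ((g : (ZMod p)ˣ) : ZMod p) + b)} : ℝ)) →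
    max R.card (Nat.card G) * max S.card (Nat.card G) * Nat.card G ≤ C * p := by
  obtain ⟨m, hm4, hεm⟩ : ∃ m : ℕ, 4 ≤ m ∧ 1 ≤ ε * m := by
    refine ⟨max 4 (Nat.ceil (1 / ε)), le_max_left _ _, ?_⟩
    have h1 : 1 / ε ≤ ((max 4 (Nat.ceil (1 / ε)) : ℕ) : ℝ) :=
      le_trans (Nat.le_ceil _) (by exact_mod_cast le_max_right _ _)
    rw [div_le_iff₀ hε] at h1
    linarith
  refine ⟨288 * m ^ 3, ?_⟩
  intro p _ G R S hC hR hS hR0 hS0 h
  refine main_nat m p G R S (e := (m - 4) * Nat.card G / (4 * m)) ?_ ?_ hR hS hR0 hS0 ?_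
  · have h1 : 4 * m * ((m - 4) * Nat.card G / (4 * m)) ≤ (m - 4) * Nat.card G :=
      Nat.mul_div_le _ _
    obtain ⟨k, rfl⟩ := Nat.exists_eq_add_of_le hm4
    rw [Nat.add_sub_cancel_left] at h1 ⊢
    nlinarith
  · refine le_trans ?_ hC
    have : m ^ 2 ≤ m ^ 3 := Nat.pow_le_pow_right (by omega) (by omega)
    omega
  · intro a ha b hb
    rcases h a ha b hb with h1 | h1
    · exact Or.inl (sshmain_key ε m _ _ hm4 hεm h1)
    · exact Or.inr (sshmain_key ε m _ _ hm4 hεm h1)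

end Pool.Agent.P.MP_4600d4_nt.Ssh
end

-- part Pool.Agent.P.MP_4600d4_nt.SshChar
section

set_option autoImplicit false

open Finset

namespace Pool.Agent.P.MP_4600d4_nt.Ssh

theorem char_count (p : ℕ) [Fact p.Prime] (G : Subgroup (ZMod p)ˣ) [Fintype G] (a : ZMod p) :
    let n1 := Nat.card {g : G // IsSquare (1 * ((g : (ZMod p)ˣ) : ZMod p) + a)}
    let n2 := Nat.card {g : G // ¬ IsSquare (1 * ((g : (ZMod p)ˣ) : ZMod p) + a)}
    let T : ℤ := ∑ g : G, quadraticChar (ZMod p) (((g : (ZMod p)ˣ) : ZMod p) + a)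
    n1 + n2 = Nat.card G ∧ T ≤ (n1 : ℤ) - n2 ∧ (n1 : ℤ) - n2 ≤ T + 1 := by
  classical
  intro n1 n2 T
  have e1 : n1 = (univ.filter fun g : G => IsSquare (((g : (ZMod p)ˣ) : ZMod p) + a)).card := by
    simp only [n1, one_mul, Nat.card_eq_fintype_card, Fintype.card_subtype]
  have e2 : n2 = (univ.filter fun g : G => ¬ IsSquare (((g : (ZMod p)ˣ) : ZMod p) + a)).card := by
    simp only [n2, one_mul, Nat.card_eq_fintype_card, Fintype.card_subtype]
  have e3 : (n1 : ℤ) - n2 =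
      ∑ g : G, (if IsSquare (((g : (ZMod p)ˣ) : ZMod p) + a) then (1 : ℤ) else -1) := by
    rw [sum_ite, e1, e2]
    simp [sub_eq_add_neg]
  have e4 : ∀ x : ZMod p, (if IsSquare x then (1 : ℤ) else -1) =
      quadraticChar (ZMod p) x + if x = 0 then 1 else 0 := by
    intro x
    by_cases h0 : x = 0
    · simp [h0]
    · by_cases h1 : IsSquare x
      · rw [if_pos h1, if_neg h0, (quadraticChar_one_iff_isSquare h0).2 h1, add_zero]
      · rw [if_neg h1, if_neg h0, quadraticChar_neg_one_iff_not_isSquare.2 h1, add_zero]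
  have e5 : (n1 : ℤ) - n2 =
      T + ((univ.filter fun g : G => ((g : (ZMod p)ˣ) : ZMod p) + a = 0).card : ℤ) := by
    rw [e3, sum_congr rfl fun g _ => e4 _, sum_add_distrib, sum_boole]
  have e6 : (univ.filter fun g : G => ((g : (ZMod p)ˣ) : ZMod p) + a = 0).card ≤ 1 := by
    refine card_le_one.2 fun g hg g' hg' => ?_
    have h1 := (mem_filter.1 hg).2
    have h2 := (mem_filter.1 hg').2
    exact Subtype.ext (Units.ext (by linear_combination h1 - h2))
  refine ⟨?_, by omega, by omega⟩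
  rw [e1, e2, card_filter_add_card_filter_not, Nat.card_eq_fintype_card, card_univ]

/-- A saving in the sum of the quadratic character over a shifted subgroup. -/
theorem char_sum (ε : ℝ) (hε : 0 < ε) : ∃ C : ℕ, ∀ (p : ℕ) [Fact p.Prime] (G : Subgroup (ZMod p)ˣ)
    [Fintype G] (a : ZMod p), a ≠ 0 → C * p < Nat.card G ^ 3 →
    ((|∑ g : G, quadraticChar (ZMod p) (((g : (ZMod p)ˣ) : ZMod p) + a)| : ℤ) : ℝ) <
      (1 / 2 + ε) * (Nat.card G : ℝ) := by
  obtain ⟨C0, hC0⟩ := main (ε / 4) (by positivity)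
  obtain ⟨M, hM⟩ := exists_nat_ge (2 / ε)
  refine ⟨(C0 + M + 1) ^ 3, fun p hp G _ a ha hd => ?_⟩
  have hp1 : 1 ≤ p := hp.out.one_le
  have h1 : C0 + M + 1 < Nat.card G := by
    refine lt_of_pow_lt_pow_left₀ 3 (Nat.zero_le _) (lt_of_le_of_lt ?_ hd)
    exact Nat.le_mul_of_pos_right _ hp1
  by_contra hc
  rw [not_lt] at hc
  obtain ⟨c1, c2, c3⟩ := char_count p G a
  have key := hC0 p G {1} {a} (by omega) (singleton_nonempty _) (singleton_nonempty _)
    (by simp) (by simpa using ha.symm) fun a' ha' b' hb' => ?_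
  · have h2 : Nat.card G ^ 3 ≤ C0 * p := by
      refine le_trans ?_ key
      rw [pow_succ, pow_two]
      exact Nat.mul_le_mul_right _ (Nat.mul_le_mul (le_max_right _ _) (le_max_right _ _))
    have h3 : C0 ≤ (C0 + M + 1) ^ 3 := le_trans (by omega) (Nat.le_self_pow (by norm_num) _)
    have h4 := Nat.mul_le_mul_right p h3
    omega
  rw [mem_singleton.1 ha', mem_singleton.1 hb']
  generalize Nat.card {g : G // IsSquare (1 * ((g : (ZMod p)ˣ) : ZMod p) + a)} = n1 at *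
  generalize Nat.card {g : G // ¬ IsSquare (1 * ((g : (ZMod p)ˣ) : ZMod p) + a)} = n2 at *
  generalize (∑ g : G, quadraticChar (ZMod p) (((g : (ZMod p)ˣ) : ZMod p) + a) : ℤ) = T at *
  have d1 : (n1 : ℝ) + n2 = Nat.card G := by exact_mod_cast c1
  have d2 : (T : ℝ) ≤ n1 - n2 := by exact_mod_cast c2
  have d3 : (n1 : ℝ) - n2 ≤ T + 1 := by exact_mod_cast c3
  have d4 : (M : ℝ) ≤ Nat.card G := by exact_mod_cast (by omega : M ≤ Nat.card G)
  have d5 : 2 ≤ ε * Nat.card G := by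
    rw [div_le_iff₀ hε] at hM
    nlinarith
  rw [Int.cast_abs] at hc
  rcases le_abs.1 hc with h | h
  · left
    nlinarith
  · right
    nlinarith

end Pool.Agent.P.MP_4600d4_nt.Ssh
end

-- part Pool.Agent.P.MP_4600d4_nt.SshCor
section

set_option autoImplicit false

open Polynomial Finset

namespace Pool.Agent.P.MP_4600d4_nt.Ssh

open Pool.Agent.P.MP_4600d4_nt.Ssg

variable {F : Type*} [Field F]

/-- The negated form of the question for sets `A` with a multiplicative symmetry. -/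
theorem invariant_case : ∃ C : ℝ, ∀ (p : ℕ) [Fact p.Prime] (G : Subgroup (ZMod p)ˣ) (β : ZMod p)
    (A B : Finset (ZMod p)), (∀ a ∈ A, ∀ g ∈ G, β + (g : ZMod p) * (a - β) ∈ A) →
    C * (p : ℝ) ^ (0.02 : ℝ) < (Nat.card G : ℝ) →
    (p : ℝ) ^ (0.49 : ℝ) ≤ (A.card : ℝ) → (p : ℝ) ^ (0.49 : ℝ) ≤ (B.card : ℝ) →
    ∃ a ∈ A, ∃ b ∈ B, ¬ IsSquare (a + b) := by
  classical
  obtain ⟨C0, hC0⟩ := main (1 / 4) (by norm_num)
  refine ⟨4 * C0, fun p hp G β A B hA hG hAc hBc => ?_⟩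
  by_contra hcon
  push Not at hcon
  have hp1 : (1 : ℝ) < p := by exact_mod_cast hp.out.one_lt
  have hp0 : (0 : ℝ) < p := by linarith
  have h49 : (1 : ℝ) < (p : ℝ) ^ (0.49 : ℝ) := Real.one_lt_rpow hp1 (by norm_num)
  have h02 : (1 : ℝ) < (p : ℝ) ^ (0.02 : ℝ) := Real.one_lt_rpow hp1 (by norm_num)
  have hA2 : 2 ≤ A.card := by
    have : (1 : ℝ) < A.card := h49.trans_le hAc
    exact_mod_cast this
  have hB2 : 2 ≤ B.card := by
    have : (1 : ℝ) < B.card := h49.trans_le hBc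
    exact_mod_cast this
  let R : Finset (ZMod p) := (A.image fun a => a - β).erase 0
  let S : Finset (ZMod p) := (B.image fun b => b + β).erase 0
  have hRc : A.card - 1 ≤ R.card := by
    have h1 : (A.image fun a => a - β).card = A.card :=
      card_image_of_injective _ sub_left_injective
    rw [← h1]
    exact Finset.pred_card_le_card_erase
  have hSc : B.card - 1 ≤ S.card := by
    have h1 : (B.image fun b => b + β).card = B.card :=
      card_image_of_injective _ (add_left_injective β)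
    rw [← h1]
    exact Finset.pred_card_le_card_erase
  have hC : (0 : ℝ) ≤ C0 := Nat.cast_nonneg _
  have hCG : C0 ≤ Nat.card G := by
    have : (C0 : ℝ) ≤ Nat.card G := by nlinarith
    exact_mod_cast this
  have key := hC0 p G R S hCG (card_pos.1 (by omega)) (card_pos.1 (by omega))
    (notMem_erase _ _) (notMem_erase _ _) (fun a ha b hb => Or.inl (by
      obtain ⟨a', ha', rfl⟩ := mem_image.1 (mem_erase.1 ha).2
      obtain ⟨b', hb', rfl⟩ := mem_image.1 (mem_erase.1 hb).2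
      have hall : ∀ g : G, IsSquare ((a' - β) * ((g : (ZMod p)ˣ) : ZMod p) + (b' + β)) := by
        intro g
        have h1 := hcon _ (hA a' ha' g g.2) b' hb'
        convert h1 using 1
        ring
      rw [Nat.card_congr (Equiv.subtypeUnivEquiv hall)]
      norm_num))
  have k1 : R.card * S.card * Nat.card G ≤ C0 * p :=
    (Nat.mul_le_mul_right _ (Nat.mul_le_mul (le_max_left _ _) (le_max_left _ _))).trans key
  have k2 : (R.card : ℝ) * S.card * Nat.card G ≤ C0 * p := by exact_mod_cast k1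
  have k3 : (A.card : ℝ) ≤ 2 * R.card := by
    have : A.card ≤ 2 * R.card := by omega
    exact_mod_cast this
  have k4 : (B.card : ℝ) ≤ 2 * S.card := by
    have : B.card ≤ 2 * S.card := by omega
    exact_mod_cast this
  have k5 : (p : ℝ) ^ (0.49 : ℝ) * (p : ℝ) ^ (0.49 : ℝ) * (p : ℝ) ^ (0.02 : ℝ) = p := by
    rw [← Real.rpow_add hp0, ← Real.rpow_add hp0]
    norm_num
  set x := (p : ℝ) ^ (0.49 : ℝ)
  set y := (p : ℝ) ^ (0.02 : ℝ)
  have k6 : x * x ≤ (2 * R.card) * (2 * S.card) :=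
    mul_le_mul (hAc.trans k3) (hBc.trans k4) (by linarith) (by positivity)
  have hG0 : (0 : ℝ) ≤ Nat.card G := Nat.cast_nonneg _
  have k7 : x * x * Nat.card G ≤ 4 * (C0 * p) := by
    nlinarith [mul_le_mul_of_nonneg_right k6 hG0]
  have k8 : x * x * (4 * C0 * y) < x * x * Nat.card G :=
    mul_lt_mul_of_pos_left hG (by positivity)
  have k9 : x * x * (4 * C0 * y) = 4 * (C0 * p) := by
    rw [← k5]
    ring
  linarith

end Pool.Agent.P.MP_4600d4_nt.Ssh
end
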