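import Pool.Agent.K.MP_4600d4_nt.C1

-- part Pool.Agent.P.MP_4600d4_nt.SshKer
section

set_option autoImplicit false

open Polynomial Finset

namespace Pool.Agent.P.MP_4600d4_nt.Ssh

open Pool.Agent.P.MP_4600d4_nt.Ssg

variable {F : Type*} [Field F]

/-- independent vectors in the kernel of a linear map -/
theorem exists_indep_ker {V W : Type*} [AddCommGroup V] [Module F V] [FiniteDimensional F V]
    [AddCommGroup W] [Module F W] [FiniteDimensional F W] (Φ : V →ₗ[F] W) {N : ℕ}
    (hN : N + Module.finrank F W ≤ Module.finrank F V) :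
    ∃ v : Fin N → V, LinearIndependent F v ∧ ∀ α, Φ (v α) = 0 := by
  have h1 := Φ.finrank_range_add_finrank_ker
  have h2 := Submodule.finrank_le (LinearMap.range Φ)
  have h3 : N ≤ Module.finrank F (LinearMap.ker Φ) := by omega
  refine ⟨fun α => (Module.finBasis F (LinearMap.ker Φ) (Fin.castLE h3 α) : V), ?_,
    fun α => (Module.finBasis F (LinearMap.ker Φ) (Fin.castLE h3 α)).2⟩
  exact ((Module.finBasis F (LinearMap.ker Φ)).linearIndependent.comp _
    (Fin.castLE_injective h3)).map' (LinearMap.ker Φ).subtype (Submodule.ker_subtype _)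

/-- the order of vanishing of a determinant at one point -/
theorem count_one {N S : ℕ} {κ : Type*} [Fintype κ] (M : Matrix (Fin N) (Fin N) F[X]) (ξ : F)
    (B : Finset (Fin N)) (L : κ → Fin N → F) (hS : S + Fintype.card κ ≤ B.card)
    (hrow : ∀ j ∈ B, ∀ v : Fin N → F, (∀ w, ∑ a, L w a * v a = 0) →
      ∑ a, (M j a).eval ξ * v a = 0) : (X - C ξ) ^ S ∣ M.det := by
  classical
  let A : Matrix (κ ⊕ {j : Fin N // j ∉ B}) (Fin N) F :=
    Matrix.of fun r a => Sum.elim (fun w => L w a) (fun j => (M j.1 a).eval ξ) r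
  have hc : Fintype.card {j : Fin N // j ∉ B} + B.card = N := by
    rw [Fintype.card_subtype_compl, Fintype.card_coe, Fintype.card_fin]
    have := B.card_le_univ
    rw [Fintype.card_fin] at this
    omega
  obtain ⟨v, hv, h0⟩ := exists_indep_ker (F := F) A.mulVecLin (N := S) (by
    rw [Module.finrank_fintype_fun_eq_card, Module.finrank_fintype_fun_eq_card, Fintype.card_sum,
      Fintype.card_fin]
    omega)
  refine pow_dvd_det M ξ v hv fun α j => ?_
  by_cases hj : j ∈ B
  · exact hrow j hj (v α) fun w => congrFun (h0 α) (Sum.inl w)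
  · exact congrFun (h0 α) (Sum.inr ⟨j, hj⟩)

end Pool.Agent.P.MP_4600d4_nt.Ssh
end

-- part Pool.Agent.P.MP_4600d4_nt.SshSpace
section

set_option autoImplicit false

open Polynomial Finset

namespace Pool.Agent.P.MP_4600d4_nt.Ssh

open Pool.Agent.P.MP_4600d4_nt.Ssg

variable {F : Type*} [Field F]

theorem natDegree_psi {D h s ν : ℕ} (d : ℕ) (t : Fin s → F) (u : Fin s → F[X])
    (hu : ∀ b, (u b).natDegree ≤ D) (c : Fin s → Fin ν → F[X])
    (hc : ∀ b i, (c b i).natDegree ≤ h) (l : ℕ) : (psi d t u c l).natDegree ≤ D + h := by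
  unfold psi
  refine natDegree_sum_le_of_forall_le _ _ fun b _ => ?_
  refine natDegree_sum_le_of_forall_le _ _ fun i _ => ?_
  refine natDegree_mul_le.trans ?_
  have h1 := hc b i
  have h2 : (C (t b ^ l) * taylor (((l * d : ℕ) : F) - ((i : ℕ) : F)) (u b)).natDegree ≤ D := by
    refine (natDegree_C_mul_le _ _).trans ?_
    rw [natDegree_taylor]
    exact hu b
  omega

/-- Step 2 (i), the points where two consecutive sums agree for free -/
theorem psi_agree {D d e n s : ℕ} (t : Fin s → F) (u : Fin s → F[X])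
    (hu : ∀ b, UGood D d e (t b) (u b)) (hen : e < n) (c : Fin s → Fin (n - e) → F[X])
    (l j : ℕ) (hj : j + n < D) :
    (psi d t u c l).eval (-(((l + 1) * d + 1 + j : ℕ) : F)) =
      (psi d t u c (l + 1)).eval (-(((l + 1) * d + 1 + j : ℕ) : F)) := by
  unfold psi
  simp only [eval_finsetSum, eval_mul, eval_C, taylor_eval]
  refine Finset.sum_congr rfl fun b _ => Finset.sum_congr rfl fun i _ => ?_
  have hi := i.2
  have hper := (hu b).per (1 + j + i) (by omega) (by omega)
  have e1 : -(((l + 1) * d + 1 + j : ℕ) : F) + (((l * d : ℕ) : F) - ((i : ℕ) : F)) =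
      -((1 + j + (i : ℕ) + d : ℕ) : F) := by push_cast; ring
  have e2 : -(((l + 1) * d + 1 + j : ℕ) : F) + ((((l + 1) * d : ℕ) : F) - ((i : ℕ) : F)) =
      -((1 + j + (i : ℕ) : ℕ) : F) := by push_cast; ring
  rw [e1, e2, hper]
  ring

/-- Step 2 (i). -/
theorem exists_kill (p : ℕ) [CharP F p] {D d e n h J s N1 : ℕ} (t : Fin s → F) (u : Fin s → F[X])
    (hu : ∀ b, UGood D d e (t b) (u b)) (hen : e < n) (hh : D + h < p)
    (hN : N1 + J * (h + n + 1) ≤ s * (h + 1) * (n - e)) :
    ∃ c : Fin N1 → Fin s → Fin (n - e) → F[X], LinearIndependent F c ∧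
      (∀ α b i, (c α b i).natDegree ≤ h) ∧
      ∀ α, ∀ l : ℕ, l < J → psi d t u (c α) l = psi d t u (c α) (l + 1) := by
  classical
  have hdeg : ∀ q : degreeLT F (h + 1), (q : F[X]).natDegree ≤ h := by
    intro q
    have := mem_degreeLT.1 q.2
    by_cases h0 : (q : F[X]) = 0
    · simp [h0]
    · exact Nat.lt_succ_iff.1 ((natDegree_lt_iff_degree_lt h0).2 this)
  let Φ : (Fin s → Fin (n - e) → degreeLT F (h + 1)) →ₗ[F] (Fin J → Fin (h + n + 1) → F) :=
    { toFun := fun c l j =>
        (psi d t u (fun b i => (c b i : F[X])) l -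
          psi d t u (fun b i => (c b i : F[X])) (l + 1)).eval
            (-((((l : ℕ) + 1) * d + 1 + (D - n + j) : ℕ) : F))
      map_add' := by
        intro a b; ext l j
        simp only [psi, Pi.add_apply, Submodule.coe_add, add_mul, Finset.sum_add_distrib,
          eval_sub, eval_add]
        ring
      map_smul' := by
        intro r a; ext l j
        simp only [psi, Pi.smul_apply, Submodule.coe_smul, smul_mul_assoc, ← Finset.smul_sum,
          eval_sub, eval_smul, RingHom.id_apply, smul_eq_mul]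
        ring }
  have hfr : ∀ k, Module.finrank F (degreeLT F k) = k := fun k => by
    simpa using (degreeLTEquiv F k).finrank_eq
  have hle : N1 + Module.finrank F (Fin J → Fin (h + n + 1) → F) ≤
      Module.finrank F (Fin s → Fin (n - e) → degreeLT F (h + 1)) := by
    simp only [Module.finrank_pi_fintype, hfr, Finset.sum_const, Finset.card_univ,
      Fintype.card_fin, smul_eq_mul, Module.finrank_self, mul_one]
    calc N1 + J * (h + n + 1) ≤ s * (h + 1) * (n - e) := hN
      _ = s * ((n - e) * (h + 1)) := by ring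
  obtain ⟨v, hv, hker⟩ := exists_indep_ker Φ hle
  let ι : (Fin s → Fin (n - e) → degreeLT F (h + 1)) →ₗ[F] (Fin s → Fin (n - e) → F[X]) :=
    { toFun := fun c b i => (c b i : F[X])
      map_add' := by intro a b; ext1 x; ext1 y; simp
      map_smul' := by intro r a; ext1 x; ext1 y; simp }
  have hι : LinearMap.ker ι = ⊥ := by
    rw [LinearMap.ker_eq_bot']
    intro c hc
    ext1 x; ext1 y
    exact Subtype.ext (congrFun (congrFun hc x) y)
  refine ⟨fun α => ι (v α), hv.map' ι hι, fun α b i => hdeg _, fun α l hl => ?_⟩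
  have hc : ∀ b i, (ι (v α) b i).natDegree ≤ h := fun b i => hdeg _
  have hd : (psi d t u (ι (v α)) l - psi d t u (ι (v α)) (l + 1)).natDegree ≤ D + h :=
    (natDegree_sub_le _ _).trans (max_le
      (natDegree_psi d t u (fun b => (hu b).deg) _ hc l)
      (natDegree_psi d t u (fun b => (hu b).deg) _ hc (l + 1)))
  rw [← sub_eq_zero]
  refine eq_zero_of_natDegree_lt_card_of_eval_eq_zero _
    (f := fun j : Fin (D + h + 1) => -(((l + 1) * d + 1 + (j : ℕ) : ℕ) : F)) ?_ ?_ ?_
  · intro a b hab
    have hab' : (((l + 1) * d + 1 + (a : ℕ) : ℕ) : F) = (((l + 1) * d + 1 + (b : ℕ) : ℕ) : F) :=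
      neg_injective hab
    have ha := a.2
    have hb := b.2
    rcases lt_trichotomy (a : ℕ) b with h1 | h1 | h1
    · exact absurd hab' (cast_ne_cast p (by omega) (by omega))
    · exact Fin.ext h1
    · exact absurd hab'.symm (cast_ne_cast p (by omega) (by omega))
  · intro j
    have hj := j.2
    by_cases h1 : (j : ℕ) + n < D
    · rw [eval_sub, psi_agree t u hu hen _ l j h1, sub_self]
    · have h2 := congrFun (congrFun (hker α) ⟨l, hl⟩) ⟨(j : ℕ) - (D - n), by omega⟩
      have h3 : D - n + ((j : ℕ) - (D - n)) = j := by omega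
      simp only [Φ, LinearMap.coe_mk, AddHom.coe_mk, h3, Pi.zero_apply] at h2
      exact h2
  · rw [Fintype.card_fin]
    exact Nat.lt_succ_of_le hd

end Pool.Agent.P.MP_4600d4_nt.Ssh
end

-- part Pool.Agent.P.MP_4600d4_nt.SshVal
section

set_option autoImplicit false

open Polynomial Finset

namespace Pool.Agent.P.MP_4600d4_nt.Ssh

open Pool.Agent.P.MP_4600d4_nt.Ssg

variable {F : Type*} [Field F]

theorem sshval_iter {D d e : ℕ} {t : F} {u : F[X]} (hu : UGood D d e t u) (y : ℕ) (hy : 1 ≤ y)
    (j : ℕ) (hj : j = 0 ∨ y + j * d + e < D + d) :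
    u.eval (-((y + j * d : ℕ) : F)) = t ^ j * u.eval (-(y : F)) := by
  induction j with
  | zero => simp
  | succ j ih =>
    have h1 : y + j * d + e < D := by
      rcases hj with h | h
      · omega
      · rw [Nat.succ_mul] at h; omega
    have h2 := hu.per (y + j * d) (by omega) h1
    have h3 : y + (j + 1) * d = y + j * d + d := by rw [Nat.succ_mul]; omega
    rw [h3, h2, ih (Or.inr (by omega)), pow_succ]
    ring

/-- Step 2 (ii), the value formula -/
theorem psi_val {D d e n J s Λ : ℕ} (t : Fin s → F) (u : Fin s → F[X])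
    (hu : ∀ b, UGood D d e (t b) (u b)) (hen : e < n) (hΛ : Λ + n = D + (J + 1) * d)
    (c : Fin s → Fin (n - e) → F[X])
    (hc : ∀ l : ℕ, l < J → psi d t u c l = psi d t u c (l + 1)) (ρ k : ℕ) (hρ : 1 ≤ ρ)
    (hk : ρ + k * d ≤ Λ) :
    (psi d t u c 0).eval (-((ρ + k * d : ℕ) : F)) =
      ∑ b, t b ^ k * (gg u c ρ b).eval (-((ρ + k * d : ℕ) : F)) := by
  have hall : ∀ l : ℕ, l ≤ J → psi d t u c 0 = psi d t u c l := by
    intro l
    induction l with
    | zero => intro _; rfl
    | succ l ih => intro hl; rw [ih (by omega), hc l (by omega)]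
  obtain ⟨l, j, hlJ, hkl, hj⟩ : ∃ l j : ℕ, l ≤ J ∧ k = l + j ∧ (j = 0 ∨ l = J) := by
    rcases le_total k J with h | h
    · exact ⟨k, 0, h, rfl, Or.inl rfl⟩
    · exact ⟨J, k - J, le_rfl, by omega, Or.inr rfl⟩
  rw [hall l hlJ]
  unfold psi gg
  rw [eval_finsetSum]
  refine Finset.sum_congr rfl fun b _ => ?_
  rw [eval_finsetSum, eval_finsetSum, Finset.mul_sum]
  refine Finset.sum_congr rfl fun i _ => ?_
  have hi : (i : ℕ) < n - e := i.2
  have hcond : j = 0 ∨ (ρ + (i : ℕ)) + j * d + e < D + d := by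
    rcases hj with h | h
    · exact Or.inl h
    · right
      subst h
      have h1 : k * d = l * d + j * d := by rw [hkl, Nat.add_mul]
      have h2 : (l + 1) * d = l * d + d := Nat.succ_mul l d
      omega
  have hit := sshval_iter (hu b) (ρ + (i : ℕ)) (by omega) j hcond
  have harg : -((ρ + k * d : ℕ) : F) + (((l * d : ℕ) : F) - ((i : ℕ) : F)) =
      -(((ρ + (i : ℕ)) + j * d : ℕ) : F) := by
    rw [hkl]; push_cast; ring
  rw [eval_mul, eval_mul, eval_mul, eval_C, eval_C, taylor_eval, harg, hit, hkl, pow_add]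
  ring

theorem natDegree_gg {h s ν : ℕ} (u : Fin s → F[X]) (c : Fin s → Fin ν → F[X])
    (hc : ∀ b i, (c b i).natDegree ≤ h) (ρ : ℕ) (b : Fin s) : (gg u c ρ b).natDegree ≤ h := by
  unfold gg
  refine natDegree_sum_le_of_forall_le _ _ fun i _ => ?_
  exact (natDegree_C_mul_le _ _).trans (hc b i)

theorem gg_zero {D d e n s : ℕ} (t : Fin s → F) (u : Fin s → F[X])
    (hu : ∀ b, UGood D d e (t b) (u b)) (c : Fin s → Fin (n - e) → F[X]) (ρ : ℕ) (b : Fin s)
    (hρ : 1 ≤ ρ) (hn : ρ + n ≤ d) : gg u c ρ b = 0 := by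
  unfold gg
  refine Finset.sum_eq_zero fun i _ => ?_
  have hi : (i : ℕ) < n - e := i.2
  rw [(hu b).zero (ρ + (i : ℕ)) (by omega) (by omega)]
  simp

/-- Step 2 (iii), the triangular part -/
theorem gg_inj {D d e n s : ℕ} (t : Fin s → F) (u : Fin s → F[X])
    (hu : ∀ b, UGood D d e (t b) (u b)) (hnd : n ≤ d) (c : Fin s → Fin (n - e) → F[X])
    (hg : ∀ ρ b, 1 ≤ ρ → ρ ≤ d → gg u c ρ b = 0) : c = 0 := by
  funext b
  have key : ∀ m : ℕ, ∀ i : Fin (n - e), n - e - (i : ℕ) ≤ m → c b i = 0 := by
    intro m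
    induction m with
    | zero => intro i hi; have := i.2; omega
    | succ m ih =>
      intro i hi
      have hi2 : (i : ℕ) < n - e := i.2
      have h0 := hg (d - e - (i : ℕ)) b (by omega) (by omega)
      unfold gg at h0
      rw [Finset.sum_eq_single i] at h0
      · have h1 : d - e - (i : ℕ) + (i : ℕ) = d - e := by omega
        rw [h1] at h0
        rcases mul_eq_zero.mp h0 with h | h
        · exact absurd (C_eq_zero.mp h) (hu b).top
        · exact h
      · intro i' _ hne
        have hne' : (i' : ℕ) ≠ (i : ℕ) := fun h => hne (Fin.ext h)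
        have hi3 : (i' : ℕ) < n - e := i'.2
        rcases lt_or_gt_of_ne hne' with h | h
        · rw [(hu b).zero (d - e - (i : ℕ) + (i' : ℕ)) (by omega) (by omega)]
          simp
        · rw [ih i' (by omega)]
          simp
      · intro h; exact absurd (Finset.mem_univ i) h
  funext i
  exact key _ i le_rfl

end Pool.Agent.P.MP_4600d4_nt.Ssh
end

-- part Pool.Agent.P.MP_4600d4_nt.SshExp
section

set_option autoImplicit false

open Polynomial Finset

namespace Pool.Agent.P.MP_4600d4_nt.Ssh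

open Pool.Agent.P.MP_4600d4_nt.Ssg

variable {F : Type*} [Field F]

theorem sshexp_per (p : ℕ) [CharP F p] (x0 δ : F) (hδ : δ ≠ 0) (f : F[X])
    (hf : f.degree < (p : ℕ)) (ht : taylor δ f = f) (h0 : f.eval x0 = 0) : f = 0 := by
  classical
  have hk : ∀ k : ℕ, f.eval (x0 + (k : F) * δ) = 0 := by
    intro k
    induction k with
    | zero => simpa using h0
    | succ k ih =>
      have h1 : (taylor δ f).eval (x0 + (k : F) * δ) = f.eval (x0 + (k : F) * δ + δ) :=
        taylor_eval _ _ _
      rw [ht, ih] at h1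
      have h2 : x0 + ((k + 1 : ℕ) : F) * δ = x0 + (k : F) * δ + δ := by push_cast; ring
      rw [h2, ← h1]
  by_cases hf0 : f = 0
  · exact hf0
  have hnat : f.natDegree < p := by
    rw [degree_eq_natDegree hf0] at hf
    exact_mod_cast hf
  refine eq_zero_of_natDegree_lt_card_of_eval_eq_zero (ι := Fin p) f
    (f := fun k : Fin p => x0 + ((k : ℕ) : F) * δ) ?_ (fun k => hk k) (by simpa using hnat)
  intro a b hab
  have h1 : ((a : ℕ) : F) = ((b : ℕ) : F) := by
    have h2 : ((a : ℕ) : F) * δ = ((b : ℕ) : F) * δ := add_left_cancel hab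
    exact mul_right_cancel₀ hδ h2
  exact Fin.ext (CharP.natCast_injOn_Iio F p a.2 b.2 h1)

theorem sshexp_gen (p : ℕ) [CharP F p] {ι : Type*} [Fintype ι] (μ : ι → F)
    (hμ : Function.Injective μ) (hμ0 : ∀ b, μ b ≠ 0) (x0 δ : F) (hδ : δ ≠ 0) (T : ℕ) :
    ∀ (n : ι → ℕ) (g : ι → F[X]), ∑ b, n b = T → (∀ b, n b ≤ p) →
      (∀ b, (g b).degree < (n b : ℕ)) →
      (∀ k : ℕ, k < T → ∑ b, μ b ^ k * (g b).eval (x0 + (k : F) * δ) = 0) → g = 0 := by
  classical
  induction T with
  | zero =>
    intro n g hn _ hdeg _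
    funext b
    have h1 : n b = 0 := (Finset.sum_eq_zero_iff.1 hn) b (mem_univ b)
    have h2 := hdeg b
    rw [h1] at h2
    have h3 : (g b).degree = ⊥ := by
      simpa using h2
    exact degree_eq_bot.1 h3
  | succ T ih =>
    intro n g hn hnp hdeg hz
    obtain ⟨b0, hb0⟩ : ∃ b0, n b0 ≠ 0 := by
      by_contra hcon
      push Not at hcon
      simp [hcon] at hn
    set g' : ι → F[X] := fun b => C (μ b) * taylor δ (g b) - C (μ b0) * g b with hg'
    have hsum : ∑ b, Function.update n b0 (n b0 - 1) b = T := by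
      rw [Finset.sum_update_of_mem (mem_univ b0)]
      have h1 := Finset.add_sum_erase univ n (mem_univ b0)
      rw [hn] at h1
      rw [Finset.sdiff_singleton_eq_erase]
      omega
    have hg0 : g' = 0 := by
      refine ih (Function.update n b0 (n b0 - 1)) g' hsum ?_ ?_ ?_
      · intro b
        by_cases hb : b = b0
        · subst hb
          rw [Function.update_self]
          exact le_trans (Nat.sub_le _ _) (hnp b)
        · rw [Function.update_of_ne hb]
          exact hnp b
      · intro b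
        by_cases hb : b = b0
        · subst hb
          rw [Function.update_self]
          by_cases hgb : g b = 0
          · simp [hg', hgb]
          have h1 : g' b = C (μ b) * (taylor δ (g b) - g b) := by
            simp only [hg']; ring
          have h2 : (taylor δ (g b) - g b).degree < (g b).degree := by
            have h3 := degree_sub_lt_left (p := taylor δ (g b)) (q := g b) (degree_taylor _ _)
              (by simpa using hgb) (leadingCoeff_taylor _ _)
            rwa [degree_taylor] at h3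
          rw [h1, degree_C_mul (hμ0 b)]
          refine lt_of_lt_of_le h2 ?_
          have h4 := hdeg b
          rw [degree_eq_natDegree hgb] at h4 ⊢
          have h5 : (g b).natDegree < n b := by exact_mod_cast h4
          have h6 : (g b).natDegree ≤ n b - 1 := by omega
          exact_mod_cast h6
        · rw [Function.update_of_ne hb]
          refine lt_of_le_of_lt (degree_sub_le _ _) (max_lt ?_ ?_)
          · rw [degree_C_mul (hμ0 b), degree_taylor]
            exact hdeg b
          · rw [degree_C_mul (hμ0 b0)]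
            exact hdeg b
      · intro k hk
        have h1 := hz (k + 1) (by omega)
        have h2 := hz k (by omega)
        have h3 : ∀ b, μ b ^ k * (g' b).eval (x0 + (k : F) * δ) =
            μ b ^ (k + 1) * (g b).eval (x0 + ((k + 1 : ℕ) : F) * δ) -
              μ b0 * (μ b ^ k * (g b).eval (x0 + (k : F) * δ)) := by
          intro b
          have h4 : x0 + ((k + 1 : ℕ) : F) * δ = x0 + (k : F) * δ + δ := by push_cast; ring
          simp only [hg', eval_sub, eval_mul, eval_C, taylor_eval, h4]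
          ring
        rw [Finset.sum_congr rfl (fun b _ => h3 b), Finset.sum_sub_distrib, ← Finset.mul_sum,
          h1, h2]
        simp
    have heq : ∀ b, C (μ b) * taylor δ (g b) = C (μ b0) * g b := by
      intro b
      have h1 := congrFun hg0 b
      simp only [hg', Pi.zero_apply] at h1
      exact sub_eq_zero.1 h1
    have hne : ∀ b, b ≠ b0 → g b = 0 := by
      intro b hb
      have h1 := congrArg leadingCoeff (heq b)
      rw [leadingCoeff_mul, leadingCoeff_mul, leadingCoeff_C, leadingCoeff_C,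
        leadingCoeff_taylor] at h1
      by_contra hgb
      have h2 : (g b).leadingCoeff ≠ 0 := leadingCoeff_ne_zero.2 hgb
      exact hb (hμ (mul_right_cancel₀ h2 h1))
    have hb0' : g b0 = 0 := by
      refine sshexp_per p x0 δ hδ (g b0) ?_ ?_ ?_
      · refine lt_of_lt_of_le (hdeg b0) ?_
        exact_mod_cast hnp b0
      · exact mul_left_cancel₀ (C_ne_zero.2 (hμ0 b0)) (heq b0)
      · have h1 := hz 0 (by omega)
        rw [Finset.sum_eq_single b0 (fun b _ hb => by simp [hne b hb]) (by simp)] at h1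
        simpa using h1
    funext b
    by_cases hb : b = b0
    · rw [hb]; exact hb0'
    · exact hne b hb

/-- an exponential polynomial of order `card ι * (h+1)` with that many consecutive zeros vanishes -/
theorem exp_poly (p : ℕ) [CharP F p] {ι : Type*} [Fintype ι] (μ : ι → F)
    (hμ : Function.Injective μ) (hμ0 : ∀ b, μ b ≠ 0) (x0 δ : F) (hδ : δ ≠ 0) {h : ℕ} (hp : h < p)
    (g : ι → F[X]) (hg : ∀ b, (g b).natDegree ≤ h)
    (hz : ∀ k : ℕ, k < Fintype.card ι * (h + 1) →
      ∑ b, μ b ^ k * (g b).eval (x0 + (k : F) * δ) = 0) : g = 0 := by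
  refine sshexp_gen p μ hμ hμ0 x0 δ hδ (Fintype.card ι * (h + 1)) (fun _ => h + 1) g ?_
    (fun _ => hp) ?_ hz
  · simp
  · intro b
    refine lt_of_le_of_lt degree_le_natDegree ?_
    have h1 : (g b).natDegree < h + 1 := Nat.lt_succ_of_le (hg b)
    exact_mod_cast h1

end Pool.Agent.P.MP_4600d4_nt.Ssh
end

-- part Pool.Agent.P.MP_4600d4_nt.SshFam
section

set_option autoImplicit false

open Polynomial Finset

namespace Pool.Agent.P.MP_4600d4_nt.Ssh

open Pool.Agent.P.MP_4600d4_nt.Ssg

variable {F : Type*} [Field F]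

theorem psi_sum {N s ν : ℕ} (d : ℕ) (t : Fin s → F) (u : Fin s → F[X])
    (c : Fin N → Fin s → Fin ν → F[X]) (v : Fin N → F) (l : ℕ) :
    psi d t u (∑ α, v α • c α) l = ∑ α, v α • psi d t u (c α) l := by
  unfold psi
  simp only [Finset.sum_apply, Pi.smul_apply, sum_mul, smul_sum, smul_mul_assoc]
  rw [sum_comm (s := (univ : Finset (Fin N)))]
  refine sum_congr rfl fun b _ => ?_
  rw [sum_comm]

/-- Step 2. -/
theorem exists_fam (p : ℕ) [CharP F p] {D d e n h J s N1 Λ : ℕ} (t : Fin s → F)
    (ht : Function.Injective t) (ht0 : ∀ b, t b ≠ 0) (u : Fin s → F[X])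
    (hu : ∀ b, UGood D d e (t b) (u b)) (hen : e < n) (hnd : n ≤ d) (hd : (d : F) ≠ 0)
    (hΛ : Λ + n = D + (J + 1) * d) (hσ : s * (h + 1) * d ≤ Λ) (hh : D + h < p)
    (hN : N1 + J * (h + n + 1) ≤ s * (h + 1) * (n - e)) :
    ∃ (f : Fin N1 → F[X]) (g : Fin N1 → ℕ → Fin s → F[X]), LinearIndependent F f ∧
      ∀ α, Fam D d n h Λ t (f α) (g α) := by
  obtain ⟨c, hc1, hc2, hc3⟩ := exists_kill p (J := J) (N1 := N1) t u hu hen hh hN
  refine ⟨fun α => psi d t u (c α) 0, fun α => gg u (c α), ?_, fun α => ⟨?_, ?_, ?_, ?_⟩⟩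
  · rw [Fintype.linearIndependent_iff]
    intro v hv
    refine Fintype.linearIndependent_iff.1 hc1 v ?_
    have h0 : psi d t u (∑ α, v α • c α) 0 = 0 := by rw [psi_sum, hv]
    have h1 : ∀ l : ℕ, l < J →
        psi d t u (∑ α, v α • c α) l = psi d t u (∑ α, v α • c α) (l + 1) := fun l hl => by
      rw [psi_sum, psi_sum]
      exact sum_congr rfl fun α _ => by rw [hc3 α l hl]
    have h2 : ∀ b i, ((∑ α, v α • c α) b i).natDegree ≤ h := fun b i => by
      simp only [Finset.sum_apply, Pi.smul_apply]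
      exact natDegree_sum_le_of_forall_le _ _ fun α _ => (natDegree_smul_le _ _).trans (hc2 α b i)
    refine gg_inj t u hu hnd _ fun ρ b hρ1 hρ2 => ?_
    refine congrFun (exp_poly p t ht ht0 (-(ρ : F)) (-(d : F)) (neg_ne_zero.2 hd)
      (h := h) (by omega) _ (natDegree_gg u _ h2 ρ) fun k hk => ?_) b
    rw [Fintype.card_fin] at hk
    have h3 : (k + 1) * d ≤ s * (h + 1) * d := Nat.mul_le_mul_right d hk
    have h4 := psi_val t u hu hen hΛ _ h1 ρ k hρ1 (by rw [add_mul] at h3; omega)
    rw [h0, eval_zero] at h4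
    have e : -(ρ : F) + (k : F) * -(d : F) = -((ρ + k * d : ℕ) : F) := by
      push_cast
      ring
    rw [e, ← h4]
  · exact natDegree_psi d t u (fun b => (hu b).deg) _ (hc2 α) 0
  · exact natDegree_gg u _ (hc2 α)
  · exact fun ρ k h1 _ h3 => psi_val t u hu hen hΛ _ (hc3 α) ρ k h1 h3
  · exact fun ρ b h1 h2 => gg_zero t u hu _ ρ b h1 h2

end Pool.Agent.P.MP_4600d4_nt.Ssh
end

-- part Pool.Agent.P.MP_4600d4_nt.SshCasA
section

set_option autoImplicit false

open Polynomial Finset

namespace Pool.Agent.P.MP_4600d4_nt.Ssh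

open Pool.Agent.P.MP_4600d4_nt.Ssg

variable {F : Type*} [Field F]

/-- twisted Casoratian lemma, all shifts -/
theorem tcas_all (p : ℕ) [Fact p.Prime] [CharP F p] (h : F) (hh : h ≠ 0) {ι : Type*} [Fintype ι]
    (θ : ι → F) (hθ : ∀ a, θ a ≠ 0) (f : ι → F[X])
    (hf : ∀ (lam : F) (v : ι → F), (∀ a, θ a ≠ lam → v a = 0) → ∑ a, v a • f a = 0 → v = 0)
    (hdeg : ∀ a, (f a).natDegree < p) (c : ι → F[X])
    (hc : ∀ j : ℕ, ∑ a, c a * (C (θ a ^ j) * taylor ((j : F) * h) (f a)) = 0) : c = 0 := by
  classical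
  have hp : p ≠ 0 := (Fact.out : p.Prime).ne_zero
  have h1 : ∀ (j : ℕ) (P : F[X]),
      ∑ a, c a * (C (θ a ^ j * P.eval (θ a ^ p)) * taylor ((j : F) * h) (f a)) = 0 := by
    intro j P
    induction P using Polynomial.induction_on' with
    | add P Q hP hQ =>
      have e : ∀ a, c a * (C (θ a ^ j * (P + Q).eval (θ a ^ p)) * taylor ((j : F) * h) (f a)) =
          c a * (C (θ a ^ j * P.eval (θ a ^ p)) * taylor ((j : F) * h) (f a)) +
          c a * (C (θ a ^ j * Q.eval (θ a ^ p)) * taylor ((j : F) * h) (f a)) := by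
        intro a
        rw [eval_add, mul_add, C_add]
        ring
      simp only [e, sum_add_distrib, hP, hQ, add_zero]
    | monomial m r =>
      have h2 := hc (j + p * m)
      have h3 : ((j + p * m : ℕ) : F) = (j : F) := by
        push_cast
        rw [CharP.cast_eq_zero F p]
        ring
      rw [h3] at h2
      have e : ∀ a, c a * (C (θ a ^ j * (monomial m r).eval (θ a ^ p)) *
          taylor ((j : F) * h) (f a)) =
          C r * (c a * (C (θ a ^ (j + p * m)) * taylor ((j : F) * h) (f a))) := by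
        intro a
        rw [eval_monomial, pow_add, pow_mul]
        simp only [C_mul]
        ring
      simp only [e, ← mul_sum, h2, mul_zero]
  funext a0
  set lam := θ a0 with hlam
  have hl0 : lam ≠ 0 := hθ a0
  let P : F[X] := ∏ a ∈ univ.filter (fun a => θ a ≠ lam), (X - C (θ a ^ p))
  have hP0 : ∀ a, θ a ≠ lam → P.eval (θ a ^ p) = 0 := by
    intro a ha
    simp only [P, eval_prod]
    refine prod_eq_zero (i := a) (by simpa using ha) ?_
    simp
  have hP1 : P.eval (lam ^ p) ≠ 0 := by
    simp only [P, eval_prod]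
    refine prod_ne_zero_iff.2 fun a ha => ?_
    have ha' : θ a ≠ lam := by simpa using ha
    simp only [eval_sub, eval_X, eval_C]
    rw [← sub_pow_char]
    exact pow_ne_zero _ (sub_ne_zero.2 ha'.symm)
  have h4 : ∀ j : ℕ, ∑ a : {a // θ a = lam}, c a.1 * taylor ((j : F) * h) (f a.1) = 0 := by
    intro j
    have h5 := h1 j P
    rw [← Fintype.sum_subtype_add_sum_subtype (fun a => θ a = lam)] at h5
    have h6 : ∑ a : {a // ¬ θ a = lam},
        c a.1 * (C (θ a.1 ^ j * P.eval (θ a.1 ^ p)) * taylor ((j : F) * h) (f a.1)) = 0 :=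
      sum_eq_zero fun a _ => by rw [hP0 a.1 a.2]; simp
    rw [h6, add_zero] at h5
    have h7 : ∑ a : {a // θ a = lam},
        c a.1 * (C (θ a.1 ^ j * P.eval (θ a.1 ^ p)) * taylor ((j : F) * h) (f a.1)) =
        C (lam ^ j * P.eval (lam ^ p)) *
          ∑ a : {a // θ a = lam}, c a.1 * taylor ((j : F) * h) (f a.1) := by
      rw [mul_sum]
      refine sum_congr rfl fun a _ => ?_
      rw [a.2]
      ring
    rw [h7] at h5
    exact (mul_eq_zero.1 h5).resolve_left
      (C_ne_zero.2 (mul_ne_zero (pow_ne_zero _ hl0) hP1))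
  have hli : LinearIndependent F (fun a : {a // θ a = lam} => f a.1) := by
    rw [Fintype.linearIndependent_iff]
    intro g hg a
    let v : ι → F := fun b => if hb : θ b = lam then g ⟨b, hb⟩ else 0
    have hv : v = 0 := by
      refine hf lam v (fun b hb => dif_neg hb) ?_
      rw [← Fintype.sum_subtype_add_sum_subtype (fun b => θ b = lam)]
      have h8 : ∑ b : {b // ¬ θ b = lam}, v b.1 • f b.1 = 0 :=
        sum_eq_zero fun b _ => by simp only [v, dif_neg b.2, zero_smul]
      rw [h8, add_zero, ← hg]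
      exact sum_congr rfl fun b _ => by simp only [v, dif_pos b.2]
    have h9 := congrFun hv a.1
    simpa only [v, dif_pos a.2, Pi.zero_apply] using h9
  have h10 := cas_all p h hh (fun a : {a // θ a = lam} => f a.1) hli (fun a => hdeg a.1)
    (fun a => c a.1) h4
  exact congrFun h10 ⟨a0, rfl⟩

end Pool.Agent.P.MP_4600d4_nt.Ssh
end

-- part Pool.Agent.P.MP_4600d4_nt.SshCasB
section

set_option autoImplicit false

open Polynomial Finset

namespace Pool.Agent.P.MP_4600d4_nt.Ssh

open Pool.Agent.P.MP_4600d4_nt.Ssg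

variable {F : Type*} [Field F]

theorem sshcasb_succ {N : ℕ} (θ : Fin (N + 1) → F) (f : Fin (N + 1) → F[X])
    (hf : ∀ (lam : F) (v : Fin (N + 1) → F), (∀ a, θ a ≠ lam → v a = 0) →
      ∑ a, v a • f a = 0 → v = 0)
    (lam : F) (v : Fin N → F) (hv : ∀ a, θ a.succ ≠ lam → v a = 0)
    (hs : ∑ a, v a • f a.succ = 0) : v = 0 := by
  have := hf lam (Fin.cons 0 v) (fun a => Fin.cases (fun _ => rfl) (fun a ha => hv a ha) a) (by
    rw [Fin.sum_univ_succ]
    simpa using hs)
  funext a
  simpa using congrFun this a.succ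

theorem sshcasb_fin (p : ℕ) [Fact p.Prime] [CharP F p] (h : F) (hh : h ≠ 0) (N : ℕ) :
    ∀ (θ : Fin N → F), (∀ a, θ a ≠ 0) → ∀ (f : Fin N → F[X]),
    (∀ (lam : F) (v : Fin N → F), (∀ a, θ a ≠ lam → v a = 0) → ∑ a, v a • f a = 0 → v = 0) →
    (∀ a, (f a).natDegree < p) → ∀ c : Fin N → F[X],
    (∀ b : ℕ, b < N → ∑ a, c a * (C (θ a ^ b) * taylor ((b : F) * h) (f a)) = 0) → c = 0 := by
  induction N with
  | zero => intro θ _ f _ _ c _; funext a; exact a.elim0
  | succ N ih =>
    intro θ hθ f hf hdeg c hc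
    have hf' := sshcasb_succ θ f hf
    by_cases h0 : c 0 = 0
    · have := ih (fun a => θ a.succ) (fun a => hθ _) (fun a => f a.succ) hf' (fun a => hdeg _)
        (fun a => c a.succ) fun b hb => by
        have := hc b (by omega)
        rwa [Fin.sum_univ_succ, h0, zero_mul, zero_add] at this
      funext a
      exact Fin.cases h0 (fun a => congrFun this a) a
    have key : ∀ b : ℕ,
        C (θ 0) * c 0 * taylor h (∑ a, c a * (C (θ a ^ b) * taylor ((b : F) * h) (f a))) -
        taylor h (c 0) * ∑ a, c a * (C (θ a ^ (b + 1)) * taylor (((b + 1 : ℕ) : F) * h) (f a)) =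
        ∑ a : Fin N, (C (θ 0) * taylor h (c a.succ) * c 0 -
            C (θ a.succ) * c a.succ * taylor h (c 0)) *
          (C (θ a.succ ^ b) * taylor ((b : F) * h) (taylor h (f a.succ))) := by
      intro b
      rw [map_sum, mul_sum, mul_sum, ← sum_sub_distrib, Fin.sum_univ_succ]
      simp only [taylor_mul, taylor_C, ← cas_step, ← cas_step', pow_succ, C_mul]
      rw [show ∀ t x y w z : F[X], t * x * (y * (w * z)) - y * (x * (w * t * z)) = 0 from
        fun t x y w z => by ring, zero_add]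
      exact sum_congr rfl fun a _ => by ring
    have hz := ih (fun a => θ a.succ) (fun a => hθ _) (fun a => taylor h (f a.succ))
      (fun lam v hv hs => hf' lam v hv (taylor_injective h (by
        rw [map_sum, map_zero, ← hs]
        exact sum_congr rfl fun a _ => map_smul _ _ _)))
      (fun a => by rw [natDegree_taylor]; exact hdeg _)
      (fun a => C (θ 0) * taylor h (c a.succ) * c 0 - C (θ a.succ) * c a.succ * taylor h (c 0))
      fun b hb => by
        rw [← key b, hc b (by omega), hc (b + 1) (by omega)]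
        simp
    have ht : taylor h (c 0) ≠ 0 := fun e => h0 (taylor_injective h (e.trans (map_zero _).symm))
    refine tcas_all p h hh θ hθ f hf hdeg c fun b => ?_
    induction b with
    | zero => exact hc 0 (by omega)
    | succ b ihb =>
      have h1 := key b
      have h2 : ∀ a : Fin N, C (θ 0) * taylor h (c a.succ) * c 0 -
          C (θ a.succ) * c a.succ * taylor h (c 0) = 0 := fun a => congrFun hz a
      simp only [h2, zero_mul, sum_const_zero] at h1
      rw [ihb, map_zero, mul_zero, zero_sub, neg_eq_zero] at h1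
      exact (mul_eq_zero.1 h1).resolve_left ht

/-- twisted Casoratian lemma, determinant form -/
theorem tcas_det_ne_zero (p : ℕ) [Fact p.Prime] [CharP F p] (h : F) (hh : h ≠ 0) {N : ℕ}
    (θ : Fin N → F) (hθ : ∀ a, θ a ≠ 0) (f : Fin N → F[X])
    (hf : ∀ (lam : F) (v : Fin N → F), (∀ a, θ a ≠ lam → v a = 0) → ∑ a, v a • f a = 0 → v = 0)
    (hdeg : ∀ a, (f a).natDegree < p) :
    (Matrix.of fun j a : Fin N =>
      C (θ a ^ (j : ℕ)) * taylor (((j : ℕ) : F) * h) (f a)).det ≠ 0 := by
  intro hd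
  obtain ⟨c, hc0, hc⟩ := Matrix.exists_mulVec_eq_zero_iff.2 hd
  refine hc0 (sshcasb_fin p h hh N θ hθ f hf hdeg c fun b hb => ?_)
  have := congrFun hc ⟨b, hb⟩
  simp only [Matrix.mulVec, dotProduct, Matrix.of_apply, Pi.zero_apply] at this
  rw [← this]
  exact sum_congr rfl fun a _ => mul_comm _ _

end Pool.Agent.P.MP_4600d4_nt.Ssh
end

-- part Pool.Agent.P.MP_4600d4_nt.SshCount
section

set_option autoImplicit false

open Polynomial Finset

namespace Pool.Agent.P.MP_4600d4_nt.Ssh

open Pool.Agent.P.MP_4600d4_nt.Ssg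

variable {F : Type*} [Field F]

/-- a product of powers of distinct linear factors bounds the degree from below -/
theorem sshcount_deg (T : Finset F) (S : F → ℕ) (f : F[X]) (hf : f ≠ 0)
    (h : ∀ ξ ∈ T, (X - C ξ) ^ (S ξ) ∣ f) : ∑ ξ ∈ T, S ξ ≤ f.natDegree := by
  have hd : ∏ ξ ∈ T, (X - C ξ) ^ (S ξ) ∣ f := by
    refine Finset.prod_dvd_of_coprime ?_ h
    intro a _ b _ hab
    exact IsCoprime.pow (isCoprime_X_sub_C_of_isUnit_sub (sub_ne_zero.2 hab).isUnit)
  have h1 := natDegree_le_of_dvd hd hf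
  rw [natDegree_prod_of_monic _ _ (fun ξ _ => (monic_X_sub_C ξ).pow _)] at h1
  simpa [natDegree_pow] using h1

/-- counting the zeros of a determinant -/
theorem count {N E Λ : ℕ} {Pt ω : Type*} [Fintype Pt] [Fintype ω]
    (M : Matrix (Fin N) (Fin N) F[X]) (hM : M.det ≠ 0) (hE : ∀ j a, (M j a).natDegree ≤ E)
    (π : Pt → F) (L : Pt → ω → Fin N → F) (x : Fin N → Fin Λ → F)
    (hx : ∀ j, Function.Injective (x j))
    (hrow : ∀ j y, ∀ v : Fin N → F, (∀ q, π q = x j y → ∀ w, ∑ a, L q w a * v a = 0) →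
      ∑ a, (M j a).eval (x j y) * v a = 0) :
    N * Λ ≤ N * E + Fintype.card ω * Fintype.card Pt := by
  classical
  let X0 : Finset F := (univ : Finset (Fin N × Fin Λ)).image (fun z => x z.1 z.2)
  let B : F → Finset (Fin N) := fun ξ => univ.filter (fun j => ∃ y, x j y = ξ)
  let k : F → ℕ := fun ξ => (univ.filter (fun q : Pt => π q = ξ)).card
  have hdvd : ∀ ξ ∈ X0, (X - C ξ) ^ ((B ξ).card - Fintype.card ω * k ξ) ∣ M.det := by
    intro ξ _
    by_cases hlt : (B ξ).card ≤ Fintype.card ω * k ξ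
    · rw [Nat.sub_eq_zero_of_le hlt, pow_zero]
      exact one_dvd _
    · refine count_one (κ := {q : Pt // π q = ξ} × ω) M ξ (B ξ) (fun z => L z.1.1 z.2) ?_ ?_
      · rw [Fintype.card_prod, Fintype.card_subtype]
        show (B ξ).card - Fintype.card ω * k ξ + k ξ * Fintype.card ω ≤ (B ξ).card
        rw [mul_comm (k ξ)]
        omega
      · intro j hj v hv
        obtain ⟨y, hy⟩ := (mem_filter.1 hj).2
        rw [← hy]
        exact hrow j y v (fun q hq w => hv (⟨q, hq.trans hy⟩, w))
  have h1 := sshcount_deg X0 _ _ hM hdvd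
  have h2 := natDegree_det_le_mul M E hE
  have h3 : N * Λ ≤ ∑ ξ ∈ X0, (B ξ).card := by
    have e1 : N * Λ = (univ : Finset (Fin N × Fin Λ)).card := by simp
    rw [e1, card_eq_sum_card_image (fun z : Fin N × Fin Λ => x z.1 z.2)]
    refine sum_le_sum (fun ξ _ => ?_)
    refine card_le_card_of_injOn Prod.fst ?_ ?_
    · intro z hz
      have hz' : x z.1 z.2 = ξ := (mem_filter.1 (mem_coe.1 hz)).2
      exact mem_coe.2 (mem_filter.2 ⟨mem_univ _, z.2, hz'⟩)
    · intro z hz z' hz' hzz
      have a1 : x z.1 z.2 = ξ := (mem_filter.1 (mem_coe.1 hz)).2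
      have a2 : x z'.1 z'.2 = ξ := (mem_filter.1 (mem_coe.1 hz')).2
      refine Prod.ext hzz (hx z'.1 ?_)
      rw [a2, ← a1, hzz]
  have h4 : ∑ ξ ∈ X0, k ξ ≤ Fintype.card Pt := by
    have e1 : ∑ ξ ∈ X0, k ξ = (univ.filter (fun q : Pt => π q ∈ X0)).card :=
      sum_card_fiberwise_eq_card_filter univ X0 π
    rw [e1]
    exact card_le_univ _
  have h5 : ∑ ξ ∈ X0, (B ξ).card ≤
      ∑ ξ ∈ X0, ((B ξ).card - Fintype.card ω * k ξ) + Fintype.card ω * ∑ ξ ∈ X0, k ξ := by
    rw [mul_sum, ← sum_add_distrib]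
    exact sum_le_sum (fun ξ _ => by omega)
  have h6 := Nat.mul_le_mul_left (Fintype.card ω) h4
  omega

end Pool.Agent.P.MP_4600d4_nt.Ssh
end
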