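import Pool.Agent.K.MP_4600d4_nt.C5
import Pool.Agent.K.MP_4600d4_nt.C6

set_option autoImplicit false

open Polynomial Finset

namespace Pool.Agent.P.MP_4600d4_nt.Ssh

open Pool.Agent.P.MP_4600d4_nt.Ssg

variable {F : Type*} [Field F]

/-- Steps 2 and 3 together: the inequality CORE. -/
theorem core_ineq (p : ℕ) [Fact p.Prime] [CharP F p] {D d e n h J K r s N1 : ℕ} (lam : Fin r → F)
    (hl : Function.Injective lam) (hl0 : ∀ a, lam a ≠ 0) (mu : Fin s → F)
    (hm : Function.Injective mu) (hm0 : ∀ b, mu b ≠ 0)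
    (hu : ∀ a b, ∃ u : F[X], UGood D d e (lam a * mu b) u) (hp : 2 * D < p) (hK1 : K * d ≤ D)
    (hK2 : D ≤ (K + 1) * d) (hen : e < n) (hnd : n ≤ d) (hh : h < d) (hJ : J + 1 ≤ K)
    (hσ : s * (h + 1) ≤ K + J) (hN : N1 + J * (h + n + 1) ≤ s * (h + 1) * (n - e)) :
    r * N1 * ((J + 1) * d) ≤ r * N1 * (n + h) + s * (h + 1) * (n * (K + J + r * N1)) := by
  classical
  have hd0 : 0 < d := by omega
  have hdD : d ≤ D := le_trans (Nat.le_mul_of_pos_left d (by omega)) hK1
  have hdF : (d : F) ≠ 0 := by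
    have := cast_ne_cast (F := F) p (a := 0) (b := d) hd0 (by omega)
    simpa using this.symm
  have hJd : (J + 1) * d ≤ K * d := Nat.mul_le_mul_right d hJ
  have hJd1 : d ≤ (J + 1) * d := Nat.le_mul_of_pos_left d (by omega)
  obtain ⟨Λ, hΛ⟩ : ∃ Λ, Λ + n = D + (J + 1) * d := ⟨D + (J + 1) * d - n, by omega⟩
  have hσ' : s * (h + 1) * d ≤ Λ := by
    have h1 : s * (h + 1) * d ≤ (K + J) * d := Nat.mul_le_mul_right d hσ
    have h2 : (K + J) * d + d = K * d + (J + 1) * d := by ring
    omega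
  choose u hu using hu
  have hfam := fun a => exists_fam p (J := J) (h := h) (N1 := N1) (fun b => lam a * mu b)
    (fun b b' hb => hm (mul_left_cancel₀ (hl0 a) hb)) (fun b => mul_ne_zero (hl0 a) (hm0 b))
    (u a) (hu a) hen hnd hdF hΛ hσ' (by omega) hN
  choose f g hf hF using hfam
  let ε : Fin (r * N1) ≃ Fin r × Fin N1 := finProdFinEquiv.symm
  have key := core p (K := K) (J := J) (fun a => lam (ε a).1) (fun a => hl0 _) mu
    (fun a => f (ε a).1 (ε a).2) (fun a => g (ε a).1 (ε a).2) (fun l v hv hs => ?_)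
    (fun a => hF (ε a).1 (ε a).2) hdF hnd hΛ (by omega) hK2 (by omega)
  · have h1 : r * N1 * Λ + r * N1 * n = r * N1 * D + r * N1 * ((J + 1) * d) := by
      rw [← mul_add, hΛ, mul_add]
    have h2 : r * N1 * (D + h) = r * N1 * D + r * N1 * h := mul_add _ _ _
    have h3 : r * N1 * (n + h) = r * N1 * n + r * N1 * h := mul_add _ _ _
    omega
  · funext a
    by_cases ha : lam (ε a).1 = l
    swap
    · exact hv a ha
    have h1 : ∑ q : Fin r × Fin N1, v (ε.symm q) • f q.1 q.2 = 0 := by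
      rw [← hs, ← ε.sum_comp]
      simp only [Equiv.symm_apply_apply]
    rw [Fintype.sum_prod_type, sum_eq_single (ε a).1] at h1
    · have := Fintype.linearIndependent_iff.1 (hf (ε a).1) (fun α => v (ε.symm ((ε a).1, α))) h1
        (ε a).2
      simpa using this
    · intro i _ hi
      refine sum_eq_zero fun α _ => ?_
      rw [hv (ε.symm (i, α)) ?_, zero_smul]
      rw [Equiv.apply_symm_apply, ← ha]
      exact fun h0 => hi (hl h0)
    · intro h0
      exact absurd (mem_univ _) h0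

end Pool.Agent.P.MP_4600d4_nt.Ssh
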